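import Pool.Agent.Helper63.T5.SLInst
import Pool.Agent.Helper87.SL.NumDefs
import Pool.Agent.Helper55.T5.Inst

/-!
# T5a, block SL: the structure `Num` of helper87 and the class numbers for a pair of states (N3)
-/

set_option autoImplicit false

namespace Pool.Agent.Helper63.T5

open Finset Pool.Agent.Helper5.ET Pool.Agent.Helper27.T4 Pool.Agent.Helper27.T5
  Pool.Agent.Helper30.T5 Pool.Agent.Helper22.HW Pool.Agent.Helper22.SL

/-! ## class numbers -/

/-- number of labels in a class -/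
theorem lab_card {q α E : ℕ} (hE : E.Coprime q) (I x : ℕ) :
    ((range I).filter (fun i => (α + E * i) % q = x % q)).card ≤ I / q + 1 := by
  classical
  set F := (range I).filter (fun i => (α + E * i) % q = x % q) with hF
  rcases F.eq_empty_or_nonempty with h0 | ⟨i0, hi0⟩
  · rw [h0, card_empty]
    exact Nat.zero_le _
  have key : ∀ i ∈ F, i % q = i0 % q := by
    intro i hi
    have h1 : (α + E * i) % q = (α + E * i0) % q := by
      rw [(mem_filter.1 hi).2, (mem_filter.1 hi0).2]
    have h2 : α + E * i ≡ α + E * i0 [MOD q] := h1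
    have h3 : E * i ≡ E * i0 [MOD q] := Nat.ModEq.add_left_cancel' _ h2
    exact Nat.ModEq.cancel_left_of_coprime hE.symm h3
  calc F.card ≤ (range (I / q + 1)).card := by
        refine card_le_card_of_injOn (fun i => i / q) ?_ ?_
        · intro i hi
          have h1 := mem_range.1 (mem_filter.1 (mem_coe.1 hi)).1
          rw [mem_coe, mem_range]
          exact Nat.lt_succ_of_le (Nat.div_le_div_right h1.le)
        · intro i hi i' hi' he
          have h1 := key i (mem_coe.1 hi)
          have h2 := key i' (mem_coe.1 hi')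
          have h3 : i / q = i' / q := he
          rw [← Nat.div_add_mod i q, ← Nat.div_add_mod i' q, h1, h2, h3]
    _ = _ := card_range _

/-- the same for the distinct values modulo a multiple -/
theorem lab_card_image {q D α E : ℕ} (hE : E.Coprime q) (hqD : q ∣ D) (I x : ℕ) :
    (((range I).image (fun i => (α + E * i) % D)).filter (fun y => y % q = x % q)).card ≤
      I / q + 1 := by
  classical
  refine le_trans (card_le_card (t := ((range I).filter
    (fun i => (α + E * i) % q = x % q)).image (fun i => (α + E * i) % D)) ?_) ?_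
  · intro y hy
    rw [mem_filter, mem_image] at hy
    obtain ⟨⟨i, hi, rfl⟩, h2⟩ := hy
    rw [Nat.mod_mod_of_dvd _ hqD] at h2
    exact mem_image.2 ⟨i, mem_filter.2 ⟨hi, h2⟩, rfl⟩
  · exact card_image_le.trans (lab_card hE I x)

section

variable {κ : Type*} {P : Pr κ} {m k j a l' l : ℕ}

/-- the class number of the level `r` -/
noncomputable def IrD (m j a l' I r : ℕ) : ℕ := I / pj j ^ (ef m (a + r) l' - l') + 1

theorem IrD_le (m j a l' I r : ℕ) : IrD m j a l' I r ≤ I + 1 := by
  unfold IrD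
  have := Nat.div_le_self I (pj j ^ (ef m (a + r) l' - l'))
  omega

theorem exp_add_one_le {x : ℝ} (hx : 0 ≤ x) : Real.exp x + 1 ≤ Real.exp (x + 1) := by
  have h1 : (1 : ℝ) ≤ Real.exp x := Real.one_le_exp hx
  have h2 : (2 : ℝ) ≤ Real.exp 1 := by
    have := Real.add_one_le_exp (1 : ℝ)
    linarith
  rw [Real.exp_add]
  nlinarith

/-- LAB2 -/
theorem IrD_lab2 {CI y : ℝ} (hCI : 0 ≤ CI + y) {I r : ℕ} (hI : (I : ℝ) ≤ Real.exp (CI + y)) :
    (IrD m j a l' I r : ℝ) ≤ Real.exp (CI + 1 + y) := by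
  have h1 : (IrD m j a l' I r : ℝ) ≤ I + 1 := by exact_mod_cast IrD_le m j a l' I r
  have h2 := exp_add_one_le hCI
  have h3 : CI + 1 + y = CI + y + 1 := by ring
  rw [h3]
  linarith

/-- LAB1 -/
theorem IrD_lab1 {CI : ℝ} (hCI : 0 ≤ CI) {I r : ℕ}
    (hI : (I : ℝ) ≤ Real.exp (CI + ((l - l' : ℕ) : ℝ) * Real.log (pj j) / 2))
    (hD : l - l' ≤ ef m (a + r) l' - l') :
    (IrD m j a l' I r : ℝ) ≤ Real.exp (CI + 1) := by
  have hp : (0 : ℝ) < pj j := by exact_mod_cast pj_pos j
  have hlog : 0 ≤ Real.log (pj j) := by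
    have := lam_gt
    have := lam_le_pj j
    linarith
  have h1 : (I : ℝ) / (pj j : ℝ) ^ (ef m (a + r) l' - l') ≤ Real.exp CI := by
    rw [div_le_iff₀ (pow_pos hp _)]
    refine hI.trans ?_
    have h2 : (pj j : ℝ) ^ (ef m (a + r) l' - l') =
        Real.exp (((ef m (a + r) l' - l' : ℕ) : ℝ) * Real.log (pj j)) := by
      rw [← Real.log_pow, Real.exp_log (pow_pos hp _)]
    rw [h2, ← Real.exp_add]
    apply Real.exp_le_exp.2
    have h3 : ((l - l' : ℕ) : ℝ) ≤ ((ef m (a + r) l' - l' : ℕ) : ℝ) := by exact_mod_cast hD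
    have h4 := mul_le_mul_of_nonneg_right h3 hlog
    have h5 : 0 ≤ ((l - l' : ℕ) : ℝ) * Real.log (pj j) := mul_nonneg (Nat.cast_nonneg _) hlog
    linarith
  have h6 : (IrD m j a l' I r : ℝ) ≤ (I : ℝ) / (pj j : ℝ) ^ (ef m (a + r) l' - l') + 1 := by
    unfold IrD
    push_cast
    have := @Nat.cast_div_le ℝ _ _ _ I (pj j ^ (ef m (a + r) l' - l'))
    push_cast at this
    linarith
  have h7 := exp_add_one_le hCI
  linarith

/-- the quotient of a lower front and the lower modulus -/
theorem PD.front_div (h : PD m k j a l' l) {i : ℕ} (hi1 : 1 ≤ i) (hi : i ≤ k + 1) :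
    Nj (ef m i l') / Nj l' = pj j ^ (ef m i l' - l') := by
  rw [h.NF' hi1 hi]
  exact Nat.mul_div_cancel_left _ (Pool.Agent.Helper50.ET.Nj_pos l')

/-- the hypothesis `hIr` of `sl_union` -/
theorem Mt'.hIr (hM : Mt' P m k j a l' l) (h : PD m k j a l' l) (hc : ef m a l' = ef m a l)
    (hF0 : P.F 0 = Nj (ef m a l)) {α E : ℕ} (hE : E.Coprime (pj j)) (I : ℕ) {r : ℕ}
    (hr : r ≤ P.h) (x : ℕ) :
    (((range I).image (fun i => (α + E * i) % (pj j ^ (ef m a l - l')))).filter
      (fun y => y % (P.F' r / P.M') = x % (P.F' r / P.M'))).card ≤ IrD m j a l' I r := by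
  have ha := h.a1
  have hak := h.ak
  have hhk := hh_le (m := m) (k := k) (j := j) (a := a) (D := l - l') h.ak
  have hMh := hM.h
  have hq : P.F' r / P.M' = pj j ^ (ef m (a + r) l' - l') := by
    rcases Nat.eq_zero_or_pos r with h0 | h0
    · subst h0
      have e : a + 0 = a := rfl
      rw [hM.F0', hF0, ← hc, hM.M', e]
      exact h.front_div ha (by omega)
    · rw [hM.F' r h0 hr, hM.M']
      exact h.front_div (by omega) (by omega)
  rw [hq]
  have h1 := h.ef_anti' (show a ≤ a + r by omega) (by omega)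
  unfold IrD
  refine lab_card_image (Nat.Coprime.pow_right _ hE) ?_ I x
  rw [← hc]
  exact pow_dvd_pow _ (by omega)

/-- the hypothesis `hC1` of `sl_union` -/
theorem hC1 {α E p S : ℕ} (hp : 0 < p) (hE : E.Coprime p) {I : ℕ} (hI : I ≤ p ^ S) (x : ℕ) :
    ((range I).filter (fun i => (α + E * i) % p ^ S = x)).card ≤ 2 := by
  have h1 : ((range I).filter (fun i => (α + E * i) % p ^ S = x)).card ≤
      ((range I).filter (fun i => (α + E * i) % p ^ S = x % p ^ S)).card := by
    refine card_le_card (fun i hi => ?_)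
    rw [mem_filter] at hi ⊢
    refine ⟨hi.1, ?_⟩
    have h2 := hi.2
    rw [← h2, Nat.mod_mod]
  have h3 := lab_card (α := α) (E := E) (q := p ^ S) (Nat.Coprime.pow_right _ hE) I x
  have h4 : I / p ^ S ≤ 1 := by
    calc I / p ^ S ≤ p ^ S / p ^ S := Nat.div_le_div_right hI
      _ ≤ 1 := by rw [Nat.div_self (pow_pos hp S)]
  omega

/-- the front `F 0` of `sl_union`: `F 0 = M' D` -/
theorem Mt'.hF0 (hM : Mt' P m k j a l' l) (h : PD m k j a l' l)
    (hF0 : P.F 0 = Nj (ef m a l)) : P.F 0 = P.M' * pj j ^ (ef m a l - l') := by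
  have hak := h.ak
  rw [hF0, hM.M']
  exact h.NF_low h.a1 (by omega)

end

/-! ## the structure `Num` -/

section

variable {κ : Type*} {P : Pr κ} {m k j a l' l : ℕ}

/-- the constant of the structure `Num` -/
noncomputable def KN (k : ℕ) : ℝ := (200 * (spb k : ℝ) ^ 2) ^ 3 * (spb k : ℝ) ^ 2

/-- late eras for the structure `Num` -/
noncomputable def cN (k : ℕ) : ℝ := 1000 * (Real.log (spb k) + 10)

theorem num_q (f : Fin 3) (h : PD m k j a l' l) (hL : LateC m k j (cN k)) {i : ℕ}
    (hi : i ≤ k) {c : ℝ} (hc : c + 1 / 2000 ≤ (gw f : ℝ) / 8 * (1 - 1 / 1024)) :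
    Real.exp (c * (W m j i * lam)) ≤ Qf m j (i + 1) f := by
  have h0 : (0 : ℝ) < Qf m j (i + 1) f := by exact_mod_cast Qf_pos _ _ _ _
  rw [← Real.exp_log h0]
  apply Real.exp_le_exp.2
  have e1 := h.log_q_ge hi f
  have e2 := hL.2 i (by omega)
  unfold cN at e2
  have e3 := lam_gt
  have e4 : (0 : ℝ) ≤ W m j i := Nat.cast_nonneg _
  have e5 : (13 : ℝ) * W m j i ≤ W m j i * lam := by
    rw [mul_comm]
    exact mul_le_mul_of_nonneg_left e3.le e4
  have e6 : 0 ≤ (W m j i : ℝ) * lam := mul_nonneg e4 (by linarith)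
  have e7 := mul_le_mul_of_nonneg_right hc e6
  have e8 : (1 : ℝ) ≤ spb k := by exact_mod_cast one_le_spb k
  have e9 : 0 ≤ Real.log (spb k) := Real.log_nonneg e8
  linarith

/-- sizes of the windows and of the levels -/
noncomputable def wN (m j a : ℕ) (r : ℕ) : ℝ := W m j (a + r) * lam

theorem log_four_lt : Real.log 4 < 2 := by
  have h1 : Real.log 4 = 2 * Real.log 2 := by
    rw [← Real.log_rpow (by norm_num)]
    norm_num
  have h2 := Real.log_two_lt_d9
  linarith

theorem lam13 (x : ℕ) : (13 : ℝ) * x ≤ x * lam := by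
  have e3 := lam_gt
  rw [mul_comm]
  exact mul_le_mul_of_nonneg_left e3.le (Nat.cast_nonneg _)

/-- bounds of a lead in natural logarithms -/
theorem lead_bounds {w e : ℕ} (j : ℕ) (h1 : 1024 * e ≤ 13 * w) (h2 : 11 * w < 1024 * e) :
    0.0107 * ((w : ℝ) * lam) ≤ (e : ℝ) * Real.log (pj j) ∧
      (e : ℝ) * Real.log (pj j) ≤ 0.0127 * ((w : ℝ) * lam) := by
  have h1' : 1024 * (e : ℝ) ≤ 13 * w := by exact_mod_cast h1
  have h2' : 11 * (w : ℝ) ≤ 1024 * e := by exact_mod_cast h2.le
  have e1 := log_pj_le j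
  have e2 := lam_le_pj j
  have e3 := lam_gt
  have e4 : (0 : ℝ) ≤ e := Nat.cast_nonneg _
  have e5 : (0 : ℝ) ≤ w := Nat.cast_nonneg _
  constructor
  · have : 0.0107 * ((w : ℝ) * lam) ≤ (e : ℝ) * lam := by
      have : (0.0107 * (w : ℝ)) * lam ≤ (e : ℝ) * lam :=
        mul_le_mul_of_nonneg_right (by linarith) (by linarith)
      linarith
    exact this.trans (mul_le_mul_of_nonneg_left e2 e4)
  · calc (e : ℝ) * Real.log (pj j) ≤ (e : ℝ) * ((1 + 1 / 100000) * lam) :=
          mul_le_mul_of_nonneg_left e1 e4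
      _ = ((e : ℝ) * (1 + 1 / 100000)) * lam := by ring
      _ ≤ (0.0127 * (w : ℝ)) * lam := mul_le_mul_of_nonneg_right (by linarith) (by linarith)
      _ = _ := by ring

/-- **the structure `Num` for a pair with a common front** -/
theorem Mt'.num (hM : Mt' P m k j a l' l) (h : PD m k j a l' l) (hc : ef m a l' = ef m a l)
    (hF0 : P.F 0 = Nj (ef m a l)) (hL : LateC m k j (cN k)) :
    Pool.Agent.Helper87.SL.Num P (((l - l' : ℕ) : ℝ) * Real.log (pj j)) (wN m j a)
      (fun r => ((ef m (a + r) l - l : ℕ) : ℝ) * Real.log (pj j))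
      (fun r => ((ef m (a + r) l' - l' : ℕ) : ℝ) * Real.log (pj j)) (KN k) := by
  have ha := h.a1
  have hak := h.ak
  have hhk := hh_le (m := m) (k := k) (j := j) (a := a) (D := l - l') h.ak
  have hMh := hM.h
  have hp : (0 : ℝ) < pj j := by exact_mod_cast pj_pos j
  have hlog : 0 ≤ Real.log (pj j) := by
    have := lam_gt
    have := lam_le_pj j
    linarith
  have hexp : ∀ n : ℕ, Real.exp ((n : ℝ) * Real.log (pj j)) = (pj j : ℝ) ^ n := by
    intro n
    rw [← Real.log_pow, Real.exp_log (pow_pos hp _)]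
  have hlam := lam_gt
  have hB1 : (1 : ℝ) ≤ spb k := by exact_mod_cast one_le_spb k
  have hFr : ∀ r ≤ P.h, P.F r = Nj (ef m (a + r) l) := by
    intro r hr
    rcases Nat.eq_zero_or_pos r with h0 | h0
    · subst h0
      exact hF0
    · exact hM.F r h0 hr
  have hFr' : ∀ r ≤ P.h, P.F' r = Nj (ef m (a + r) l') := by
    intro r hr
    rcases Nat.eq_zero_or_pos r with h0 | h0
    · subst h0
      rw [hM.F0', hF0, ← hc]
      rfl
    · exact hM.F' r h0 hr
  have hKN1 : (200 * (spb k : ℝ) ^ 2) ^ 3 ≤ KN k := by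
    unfold KN
    have h1 : (1 : ℝ) ≤ (spb k : ℝ) ^ 2 := one_le_pow₀ hB1
    exact le_mul_of_one_le_right (by positivity) h1
  refine
    { D0 := mul_nonneg (Nat.cast_nonneg _) hlog
      M := ?_
      M'0 := ?_
      F := ?_
      F' := ?_
      sl := ?_
      su := ?_
      sl' := ?_
      su' := ?_
      q0 := ?_
      q1 := ?_
      q2 := ?_
      qu := ?_
      deep := ?_
      w1 := ?_
      w0 := ?_
      Dl := ?_
      jump := ?_
      K1 := ?_
      A := ?_
      Ap := ?_ }
  · rw [hexp, hM.M, hM.M', h.Nl]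
    push_cast
    ring
  · rw [hM.M']
    exact Pool.Agent.Helper50.ET.Nj_pos l'
  · intro r hr
    rw [hexp, hFr r hr, hM.M, h.NF (i := a + r) (by omega) (by omega)]
    push_cast
    ring
  · intro r hr
    rw [hexp, hFr' r hr, hM.M', h.NF' (i := a + r) (by omega) (by omega)]
    push_cast
    ring
  · intro r hr
    have e1 := h.lead (i := a + r) (by omega)
    exact (lead_bounds j e1.2.1 e1.2.2).1
  · intro r hr
    have e1 := h.lead (i := a + r) (by omega)
    have e2 := (lead_bounds j e1.2.1 e1.2.2).2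
    have e3 : (0 : ℝ) ≤ wN m j a r := mul_nonneg (Nat.cast_nonneg _) (by linarith)
    unfold wN at e3 ⊢
    exact e2.trans (by linarith)
  · intro r hr
    have e1 := h.lead' (i := a + r) (by omega)
    exact (lead_bounds j e1.2.1 e1.2.2).1
  · intro r hr
    have e1 := h.lead' (i := a + r) (by omega)
    have e2 := (lead_bounds j e1.2.1 e1.2.2).2
    have e3 : (0 : ℝ) ≤ wN m j a r := mul_nonneg (Nat.cast_nonneg _) (by linarith)
    unfold wN at e3 ⊢
    exact e2.trans (by linarith)
  · intro r hr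
    rw [hM.toMt.q hr]
    refine num_q 0 h hL (by omega) ?_
    rw [gw0]
    norm_num
  · intro r hr
    rw [hM.toMt.q hr]
    refine num_q 1 h hL (by omega) ?_
    rw [gw1]
    norm_num
  · intro r hr
    rw [hM.toMt.q hr]
    refine num_q 2 h hL (by omega) ?_
    rw [gw2]
    norm_num
  · intro r hr i
    rw [hM.toMt.q hr]
    have h0 : (0 : ℝ) < Qf m j (a + r + 1) i := by exact_mod_cast Qf_pos _ _ _ _
    rw [← Real.exp_log h0]
    apply Real.exp_le_exp.2
    have e1 := h.log_q_le (i := a + r) (by omega) i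
    refine e1.trans ?_
    unfold wN
    have e2 : (gw i : ℝ) ≤ 4 := by
      have : gw i ≤ 4 := by fin_cases i <;> simp [gw]
      exact_mod_cast this
    have e3 : (0 : ℝ) ≤ (W m j (a + r) : ℝ) * lam := mul_nonneg (Nat.cast_nonneg _) (by linarith)
    nlinarith
  · intro r hr
    have e1 := h.W_step (i := a + r) (by omega)
    have e2 : ((2 ^ 10 * W m j (a + r + 1) : ℕ) : ℝ) ≤ (W m j (a + r) : ℝ) := by
      exact_mod_cast e1
    push_cast at e2
    have e3 : (0 : ℝ) ≤ (W m j (a + r + 1) : ℝ) := Nat.cast_nonneg _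
    have e4 : 20 * (W m j (a + r + 1) : ℝ) ≤ W m j (a + r) := by linarith
    have e5 := mul_le_mul_of_nonneg_right e4 (show 0 ≤ lam by linarith)
    have e6 : a + (r + 1) = a + r + 1 := rfl
    unfold wN
    rw [e6]
    linarith
  · intro r hr
    have e7 : 2 ^ 10 ≤ W m j (a + r) := W_ge h.big (by have := h.km; omega)
    have e8 : ((2 ^ 10 : ℕ) : ℝ) ≤ (W m j (a + r) : ℝ) := by exact_mod_cast e7
    push_cast at e8
    have e9 := lam13 (W m j (a + r))
    unfold wN
    linarith
  · exact mul_nonneg (Nat.cast_nonneg _) (by linarith)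
  · intro r hr
    have e1 := h.D_le (r := r) (by omega)
    unfold wN
    refine e1.trans (le_of_eq ?_)
    ring
  · intro r hr1 hr
    rw [hFr r hr, hFr' r hr, h.NF_ratio (i := a + r) (by omega) (by omega)]
    push_cast
    apply mul_le_mul_of_nonneg_left _ (Nat.cast_nonneg _)
    rw [← hexp]
    apply Real.exp_le_exp.2
    have e1 := (h.mu (i := a + r) (by omega) (by omega)).1
    have e2 := h.PPm (i := a + r) (by omega)
    have e3 : (PP m j (a + r) : ℝ) ≤ ((ef m (a + r) l - ef m (a + r) l' : ℕ) : ℝ) := by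
      exact_mod_cast (by omega : PP m j (a + r) ≤ ef m (a + r) l - ef m (a + r) l')
    have e4 : (512 : ℝ) * PP m j (a + r) = W m j (a + r) := by
      have h3 : ((2 ^ 9 * PP m j (a + r) : ℕ) : ℝ) = (W m j (a + r) : ℝ) := by rw [e2]
      push_cast at h3
      linarith
    have e5 := lam_le_pj j
    calc wN m j a r / 512 = (PP m j (a + r) : ℝ) * lam := by
          unfold wN
          rw [← e4]
          ring
      _ ≤ (PP m j (a + r) : ℝ) * Real.log (pj j) := mul_le_mul_of_nonneg_left e5 (Nat.cast_nonneg _)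
      _ ≤ _ := mul_le_mul_of_nonneg_right e3 hlog
  · refine le_trans ?_ hKN1
    apply one_le_pow₀
    nlinarith
  · intro r hr
    exact (hM.toMt.A_le h hr).2.trans hKN1
  · intro r hr
    have e1 := hM.toMt.A_le h hr.le
    have e4 : (P.p r 0 : ℝ) ≤ spb k := by
      rw [hM.p r hr]
      exact_mod_cast sp_le_spb (by omega) 0
    have e5 : (P.p r 2 : ℝ) ≤ spb k := by
      rw [hM.p r hr]
      exact_mod_cast sp_le_spb (by omega) 2
    unfold KN
    have e6 : (P.p r 0 : ℝ) * P.p r 2 ≤ (spb k : ℝ) ^ 2 := by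
      rw [sq]
      exact mul_le_mul e4 e5 (Nat.cast_nonneg _) (by linarith)
    exact mul_le_mul e1.2 e6 (by positivity) (by positivity)

/-! ## the instance over the definitions of helper11 -/

open Pool.Agent.Helper55.T5 Pool.Agent.Helper11.T5 in
/-- the numbers of `prD` (`a = t + 1`) -/
theorem PD.mtD {m k j t l' l F0 : ℕ} (h : PD m k j (t + 1) l' l)
    (h1 : Nj (ef m (t + 1) l) ∣ F0) (h2 : F0 ∣ 4 * Nj (ef m (t + 1) l)) :
    Mt' (prD m l' l t (hh m k j (t + 1) (l - l')) F0) m k j (t + 1) l' l := by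
  rw [prD_eq]
  exact h.mt h1 h2

open Pool.Agent.Helper55.T5 Pool.Agent.Helper11.T5 in
/-- `P.Ok` for `prD` -/
theorem PD.okD {m k j t l' l F0 : ℕ} (h : PD m k j (t + 1) l' l) (hL : Late m k j)
    (h1 : Nj (ef m (t + 1) l) ∣ F0) (h2 : F0 ∣ 4 * Nj (ef m (t + 1) l)) :
    (prD m l' l t (hh m k j (t + 1) (l - l')) F0).Ok (Pool.Agent.Helper11.T5.Mk m) := by
  rw [prD_eq]
  have he := h.el
  subst he
  exact h.ok hL (skey_skD m) (fun i => YsD_adm _ _ _) h1 h2

end

end Pool.Agent.Helper63.T5
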