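import Pool.Agent.Helper63.T5.SLSch

/-!
# T5a, block SL: the prices `hA`, `hB`, `hGamma` for the schedule
-/

set_option autoImplicit false

namespace Pool.Agent.Helper63.T5

open Finset Pool.Agent.Helper5.ET Pool.Agent.Helper27.T5 Pool.Agent.Helper30.T5
open Pool.Agent.Helper22.SL

/-- the block `P` has the numbers of the pair `l' < l` with base level `a` -/
structure Mt {κ : Type*} (P : Pr κ) (m k j a l' l : ℕ) : Prop where
  h : P.h = hh m k j a (l - l')
  p : ∀ r < P.h, ∀ i, P.p r i = sp (3 * (a + r + 1) + i)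
  z : ∀ r < P.h, ∀ i, P.z r i = zz m j (a + r + 1) i
  F : ∀ r, 1 ≤ r → r ≤ P.h → P.F r = Nj (ef m (a + r) l)
  F' : ∀ r, 1 ≤ r → r ≤ P.h → P.F' r = Nj (ef m (a + r) l')

section

variable {κ : Type*} {P : Pr κ} {m k j a l' l : ℕ}

theorem Mt.q (hM : Mt P m k j a l' l) {r : ℕ} (hr : r < P.h) (i : Fin 3) :
    P.q r i = Qf m j (a + r + 1) i := by
  unfold Pr.q Qf
  rw [hM.p r hr, hM.z r hr]

/-- bound for all primes of the static levels -/
noncomputable def spb (k : ℕ) : ℕ := sp (3 * (k + 1) + 3)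

theorem sp_le_spb {k i : ℕ} (hi : i ≤ k + 1) (f : Fin 3) : sp (3 * i + f) ≤ spb k := by
  have := f.2
  exact sp_strictMono.monotone (by omega)

theorem one_le_spb (k : ℕ) : 1 ≤ spb k := sp_pos _

theorem Mt.A_le (hM : Mt P m k j a l' l) (h : PD m k j a l' l) {r : ℕ} (hr : r ≤ P.h) :
    0 ≤ P.A r ∧ P.A r ≤ (200 * (spb k : ℝ) ^ 2) ^ 3 := by
  have hh3 := h.hh_le_three
  have hb := hh_le (m := m) (k := k) (j := j) (a := a) (D := l - l') h.ak
  have h1 : (1 : ℝ) ≤ 200 * (spb k : ℝ) ^ 2 := by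
    have : (1 : ℝ) ≤ spb k := by exact_mod_cast one_le_spb k
    nlinarith
  constructor
  · exact Finset.prod_nonneg (fun _ _ => by positivity)
  · unfold Pr.A
    calc ∏ t ∈ range r, (200 * (P.p t 0 : ℝ) * P.p t 1)
        ≤ ∏ _t ∈ range r, (200 * (spb k : ℝ) ^ 2) := by
          refine Finset.prod_le_prod (fun _ _ => by positivity) (fun t ht => ?_)
          rw [mem_range] at ht
          have e1 : (P.p t 0 : ℝ) ≤ spb k := by
            rw [hM.p t (by omega)]
            exact_mod_cast sp_le_spb (by rw [hM.h] at hr; omega) 0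
          have e2 : (P.p t 1 : ℝ) ≤ spb k := by
            rw [hM.p t (by omega)]
            exact_mod_cast sp_le_spb (by rw [hM.h] at hr; omega) 1
          have e3 : (0 : ℝ) ≤ P.p t 1 := Nat.cast_nonneg _
          have e4 : (0 : ℝ) ≤ spb k := Nat.cast_nonneg _
          calc 200 * (P.p t 0 : ℝ) * P.p t 1 ≤ 200 * (spb k : ℝ) * spb k := by gcongr
            _ = _ := by ring
      _ = (200 * (spb k : ℝ) ^ 2) ^ r := by rw [Finset.prod_const, card_range]
      _ ≤ (200 * (spb k : ℝ) ^ 2) ^ 3 := pow_le_pow_right₀ h1 (by rw [hM.h] at hr; omega)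

/-- constants: `c` is absorbed -/
def LateC (m k j : ℕ) (c : ℝ) : Prop :=
  Late m k j ∧ ∀ i ≤ k + 1, c ≤ (W m j i : ℝ)

theorem exists_lateC (m k : ℕ) (hk : k + 2 ≤ m) (c : ℝ) :
    ∃ j0 : ℕ, ∀ j ≥ j0, LateC m k j c := by
  obtain ⟨j1, h1⟩ := exists_late m k hk
  obtain ⟨j2, h2⟩ := exists_log_pow_le_W (m := m) (by omega) c 0
  refine ⟨max j1 j2, fun j hj => ⟨h1 j (le_trans (le_max_left _ _) hj), fun i hi => ?_⟩⟩
  have := h2 j (le_trans (le_max_right _ _) hj) i (by omega)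
  rwa [pow_zero, mul_one] at this

/-- `log 10 ^ 6` -/
noncomputable def lam : ℝ := Real.log (10 ^ 6)

theorem lam_gt : 13 < lam := log_million_gt

theorem lam_lt : lam < 14 := log_million_lt

theorem log_pj_le (j : ℕ) : Real.log (pj j) ≤ (1 + 1 / 100000) * lam := log_pr_le_million _

theorem lam_le_pj (j : ℕ) : lam ≤ Real.log (pj j) := log_million_le_pr _

theorem PD.log_q_ge (h : PD m k j a l' l) {i : ℕ} (hi : i ≤ k) (f : Fin 3) :
    (gw f : ℝ) / 8 * ((1 - 1 / 1024) * W m j i) * lam - Real.log (spb k) ≤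
      Real.log (Qf m j (i + 1) f) := by
  have e1 := le_log_Qf m j (i + 1) f
  have e2 : Real.log (sp (3 * (i + 1) + f)) ≤ Real.log (spb k) :=
    Real.log_le_log (by exact_mod_cast sp_pos _) (by exact_mod_cast sp_le_spb (by omega) f)
  have e3 : (8 * dg m j (i + 1) f : ℝ) = gw f * (W m j i - W m j (i + 1)) := by
    have e4 := h.dg8 hi f
    have e5 : W m j (i + 1) ≤ W m j i := W_anti m j (by omega)
    have e6 : ((8 * dg m j (i + 1) f : ℕ) : ℝ) = ((gw f * (W m j i - W m j (i + 1)) : ℕ) : ℝ) := by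
      rw [e4]
    push_cast [Nat.cast_sub e5] at e6
    exact e6
  have e7 : 1024 * (W m j (i + 1) : ℝ) ≤ W m j i := by
    have := h.W_step hi
    have h2 : ((2 ^ 10 * W m j (i + 1) : ℕ) : ℝ) ≤ (W m j i : ℝ) := by exact_mod_cast this
    push_cast at h2
    linarith
  have e8 : (0 : ℝ) ≤ gw f := Nat.cast_nonneg _
  have e9 := lam_gt
  have e10 : (gw f : ℝ) / 8 * ((1 - 1 / 1024) * W m j i) ≤ dg m j (i + 1) f := by
    have : (dg m j (i + 1) f : ℝ) = gw f * (W m j i - W m j (i + 1)) / 8 := by linarith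
    rw [this, div_mul_eq_mul_div]
    apply div_le_div_of_nonneg_right _ (by norm_num)
    apply mul_le_mul_of_nonneg_left _ e8
    linarith
  have e11 := mul_le_mul_of_nonneg_right e10 (show 0 ≤ lam by linarith)
  have e12 : Real.log (10 ^ 6) = lam := rfl
  rw [e12] at e1
  linarith

theorem PD.log_q_le (h : PD m k j a l' l) {i : ℕ} (hi : i ≤ k) (f : Fin 3) :
    Real.log (Qf m j (i + 1) f) ≤ (gw f : ℝ) / 8 * (W m j i) * lam := by
  have e1 := log_Qf_le m j (i + 1) f
  have e3 : (8 * dg m j (i + 1) f : ℝ) ≤ gw f * W m j i := by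
    have e4 := h.dg8 hi f
    have e6 : 8 * dg m j (i + 1) f ≤ gw f * W m j i := by
      rw [e4]
      exact Nat.mul_le_mul_left _ (Nat.sub_le _ _)
    exact_mod_cast e6
  have e12 : Real.log (10 ^ 6) = lam := rfl
  rw [e12] at e1
  have e9 := lam_gt
  refine e1.trans (mul_le_mul_of_nonneg_right ?_ (by linarith))
  linarith

theorem PD.D_le (h : PD m k j a l' l) {r : ℕ} (hr : r < hh m k j a (l - l')) :
    ((l - l' : ℕ) : ℝ) * Real.log (pj j) ≤ (351 / 1000) * W m j (a + r) * lam := by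
  have e1 := (h.r_lt hr).1
  have e2 : 20 * ((l - l' : ℕ) : ℝ) ≤ 7 * (W m j (a + r) : ℝ) := by exact_mod_cast e1.le
  have e3 := log_pj_le j
  have e4 := lam_gt
  have e5 : (0 : ℝ) ≤ ((l - l' : ℕ) : ℝ) := Nat.cast_nonneg _
  calc ((l - l' : ℕ) : ℝ) * Real.log (pj j)
      ≤ ((l - l' : ℕ) : ℝ) * ((1 + 1 / 100000) * lam) := mul_le_mul_of_nonneg_left e3 e5
    _ = (((l - l' : ℕ) : ℝ) * (1 + 1 / 100000)) * lam := by ring
    _ ≤ _ := by
        apply mul_le_mul_of_nonneg_right _ (by linarith)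
        linarith

/-- the constant to be absorbed -/
noncomputable def cA (k : ℕ) (CI : ℝ) : ℝ :=
  50 * (Real.log (80 * (200 * (spb k : ℝ) ^ 2) ^ 3) + CI + 3 * Real.log (spb k) + 10)

theorem cA_pos {k : ℕ} {CI : ℝ} (hCI : 0 ≤ CI) : 0 ≤ cA k CI := by
  have h1 : (1 : ℝ) ≤ spb k := by exact_mod_cast one_le_spb k
  have h2 : 0 ≤ Real.log (spb k) := Real.log_nonneg h1
  have h3 : (1 : ℝ) ≤ 80 * (200 * (spb k : ℝ) ^ 2) ^ 3 := by
    have : (1 : ℝ) ≤ (200 * (spb k : ℝ) ^ 2) ^ 3 := by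
      apply one_le_pow₀
      nlinarith
    linarith
  have h4 := Real.log_nonneg h3
  unfold cA
  linarith

/-- **hA** -/
theorem Mt.hA (hM : Mt P m k j a l' l) (h : PD m k j a l' l) {CI : ℝ}
    (hL : LateC m k j (cA k CI)) {I : ℕ}
    (hI : (I : ℝ) ≤ Real.exp (CI + ((l - l' : ℕ) : ℝ) * Real.log (pj j) / 2)) {δ : ℝ}
    (hδ : δ ≤ W m j (a + P.h)) {r : ℕ} (hr : r < P.h) :
    80 * I * P.A r * P.p r 0 * P.p r 2 * Real.sqrt (P.q r 1) ≤ Real.exp (-δ) * P.q r 1 := by
  have hr' : r < hh m k j a (l - l') := by rw [← hM.h]; exact hr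
  obtain ⟨h1, h2⟩ := h.r_lt hr'
  have hhk := hh_le (m := m) (k := k) (j := j) (a := a) (D := l - l') h.ak
  have hA := hM.A_le h hr.le
  set q : ℝ := (P.q r 1 : ℝ) with hq
  have hq0 : 0 < q := by
    rw [hq, hM.q hr]
    exact_mod_cast Qf_pos _ _ _ _
  have e1 : Real.log q = Real.log (Qf m j (a + r + 1) 1) := by rw [hq, hM.q hr]
  have e2 := h.log_q_ge h2 1
  rw [gw1, ← e1] at e2
  have e3 := h.D_le hr'
  have e4 : (P.p r 0 : ℝ) ≤ spb k := by
    rw [hM.p r hr]
    exact_mod_cast sp_le_spb (by omega) 0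
  have e5 : (P.p r 2 : ℝ) ≤ spb k := by
    rw [hM.p r hr]
    exact_mod_cast sp_le_spb (by omega) 2
  set B : ℝ := (spb k : ℝ) with hB
  have hB1 : 1 ≤ B := by
    rw [hB]
    exact_mod_cast one_le_spb k
  obtain ⟨X, hX⟩ : ∃ X : ℝ, X = CI + ((l - l' : ℕ) : ℝ) * Real.log (pj j) / 2 := ⟨_, rfl⟩
  rw [← hX] at hI
  -- reduction to logarithms
  have key : 80 * I * P.A r * P.p r 0 * P.p r 2 ≤ Real.exp (-δ) * Real.sqrt q := by
    calc 80 * I * P.A r * P.p r 0 * P.p r 2
        ≤ 80 * Real.exp X * (200 * B ^ 2) ^ 3 * B * B := by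
          have a1 := hA.1
          have a2 := hA.2
          gcongr
      _ = Real.exp (Real.log (80 * (200 * B ^ 2) ^ 3) + Real.log B + Real.log B + X) := by
          rw [Real.exp_add, Real.exp_add, Real.exp_add, Real.exp_log (by positivity),
            Real.exp_log (by linarith)]
          ring
      _ ≤ Real.exp (-δ + Real.log q / 2) := by
          apply Real.exp_le_exp.2
          have c1 := hL.2 (a + r) (by omega)
          have c2 : 1024 * (W m j (a + P.h) : ℝ) ≤ W m j (a + r) := by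
            have d1 := h.W_step (i := a + r) h2
            have d2 : W m j (a + P.h) ≤ W m j (a + r + 1) := W_anti m j (by omega)
            have d3 : 2 ^ 10 * W m j (a + P.h) ≤ W m j (a + r) :=
              (Nat.mul_le_mul_left _ d2).trans d1
            have d4 : ((2 ^ 10 * W m j (a + P.h) : ℕ) : ℝ) ≤ (W m j (a + r) : ℝ) := by
              exact_mod_cast d3
            push_cast at d4
            linarith
          unfold cA at c1
          rw [← hB] at c1
          have c3 := lam_gt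
          have c4 : 0 ≤ Real.log B := Real.log_nonneg hB1
          have c5 : (0 : ℝ) ≤ W m j (a + r) := Nat.cast_nonneg _
          have c6 : (13 : ℝ) * W m j (a + r) ≤ W m j (a + r) * lam := by
            rw [mul_comm]
            exact mul_le_mul_of_nonneg_left c3.le c5
          have c7 : (11 / 1000 : ℝ) * (13 * W m j (a + r)) ≤
              11 / 1000 * (W m j (a + r) * lam) := mul_le_mul_of_nonneg_left c6 (by norm_num)
          push_cast at e2
          linarith
      _ = Real.exp (-δ) * Real.sqrt q := by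
          rw [Real.exp_add, Real.sqrt_eq_rpow, Real.rpow_def_of_pos hq0]
          congr 2
          ring
  calc 80 * I * P.A r * P.p r 0 * P.p r 2 * Real.sqrt q
      ≤ (Real.exp (-δ) * Real.sqrt q) * Real.sqrt q :=
        mul_le_mul_of_nonneg_right key (Real.sqrt_nonneg _)
    _ = Real.exp (-δ) * q := by rw [mul_assoc, Real.mul_self_sqrt hq0.le]

/-- the quotient of the fronts -/
theorem PD.ratio (h : PD m k j a l' l) {i : ℕ} (hi1 : a < i) (hi : i ≤ k + 1) :
    (Nj (ef m i l') : ℝ) / Nj (ef m i l) =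
      Real.exp (-(((ef m i l - ef m i l' : ℕ) : ℝ) * Real.log (pj j))) := by
  have ha := h.a1
  have e1 := h.NF_ratio (i := i) (by omega) hi
  have e2 : (0 : ℝ) < Nj (ef m i l') := by
    exact_mod_cast Pool.Agent.Helper50.ET.Nj_pos _
  have e3 : (0 : ℝ) < pj j := by exact_mod_cast pj_pos j
  have e4 : (Nj (ef m i l) : ℝ) = Nj (ef m i l') * (pj j : ℝ) ^ (ef m i l - ef m i l') := by
    rw [e1]
    push_cast
    ring
  rw [e4, Real.exp_neg, ← Real.log_pow, Real.exp_log (by positivity), div_mul_eq_div_div,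
    div_self e2.ne', one_div]

/-- the labels against the jump of the front -/
theorem PD.lab (h : PD m k j a l' l) {i : ℕ} (hi1 : a < i) (hi : i ≤ k + 1) {CI : ℝ} {J : ℕ}
    (h1 : l - l' ≤ ef m i l' - l' → (J : ℝ) ≤ Real.exp CI)
    (h2 : (J : ℝ) ≤ Real.exp (CI + ((l - l' : ℕ) : ℝ) * Real.log (pj j) / 2)) :
    (J : ℝ) * ((Nj (ef m i l') : ℝ) / Nj (ef m i l)) ≤
      Real.exp (CI - (PP m j i : ℝ) * Real.log (pj j)) := by
  rw [h.ratio hi1 hi]
  obtain ⟨e1, e2, e3⟩ := h.mu hi1 hi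
  have e4 := h.lead' hi
  have e5 := h.PPm hi
  have e6 : 0 ≤ Real.log (pj j) := by
    have := lam_gt
    have := lam_le_pj j
    linarith
  have e7 : (PP m j i : ℝ) ≤ ((ef m i l - ef m i l' : ℕ) : ℝ) := by
    exact_mod_cast (by omega : PP m j i ≤ ef m i l - ef m i l')
  rcases Nat.lt_or_ge (ef m i l' - l') (l - l') with hc | hc
  · -- two jumps or more
    calc (J : ℝ) * Real.exp (-(((ef m i l - ef m i l' : ℕ) : ℝ) * Real.log (pj j)))
        ≤ Real.exp (CI + ((l - l' : ℕ) : ℝ) * Real.log (pj j) / 2) *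
          Real.exp (-(((ef m i l - ef m i l' : ℕ) : ℝ) * Real.log (pj j))) :=
          mul_le_mul_of_nonneg_right h2 (Real.exp_pos _).le
      _ = Real.exp (CI + ((l - l' : ℕ) : ℝ) * Real.log (pj j) / 2 -
          ((ef m i l - ef m i l' : ℕ) : ℝ) * Real.log (pj j)) := by
          rw [← Real.exp_add]
          congr 1
      _ ≤ _ := by
          apply Real.exp_le_exp.2
          have c1 : ((l - l' : ℕ) : ℝ) / 2 + PP m j i ≤ ((ef m i l - ef m i l' : ℕ) : ℝ) := by
            have c2 : (l - l') + 2 * PP m j i ≤ 2 * (ef m i l - ef m i l') := by omega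
            have c3 : (((l - l') + 2 * PP m j i : ℕ) : ℝ) ≤
                ((2 * (ef m i l - ef m i l') : ℕ) : ℝ) := by exact_mod_cast c2
            push_cast [-Nat.cast_sub] at c3
            linarith
          have c4 := mul_le_mul_of_nonneg_right c1 e6
          linarith
  · calc (J : ℝ) * Real.exp (-(((ef m i l - ef m i l' : ℕ) : ℝ) * Real.log (pj j)))
        ≤ Real.exp CI * Real.exp (-((PP m j i : ℝ) * Real.log (pj j))) := by
          apply mul_le_mul (h1 hc) _ (Real.exp_pos _).le (Real.exp_pos _).le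
          apply Real.exp_le_exp.2
          have := mul_le_mul_of_nonneg_right e7 e6
          linarith
      _ = _ := by
          rw [← Real.exp_add]
          congr 1

/-- **hB** -/
theorem Mt.hB (hM : Mt P m k j a l' l) (h : PD m k j a l' l) {CI : ℝ}
    (hL : LateC m k j (cA k CI)) {δ : ℝ} (hδ : δ ≤ W m j (a + P.h)) {r J : ℕ} (hr : r < P.h)
    (hr1 : 1 ≤ r) (h1 : l - l' ≤ ef m (a + r) l' - l' → (J : ℝ) ≤ Real.exp CI)
    (h2 : (J : ℝ) ≤ Real.exp (CI + ((l - l' : ℕ) : ℝ) * Real.log (pj j) / 2)) :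
    J * P.A r * P.pc r ≤ Real.exp (-δ) := by
  have hr' : r < hh m k j a (l - l') := by rw [← hM.h]; exact hr
  obtain ⟨hr7, hrk⟩ := h.r_lt hr'
  have hA := hM.A_le h hr.le
  have c0 := h.lab (i := a + r) (by omega) (by omega) h1 h2
  -- the second term of the price
  obtain ⟨s, rfl⟩ : ∃ s, r = s + 1 := ⟨r - 1, by omega⟩
  have hs' : s < hh m k j a (l - l') := by omega
  have hsk := (h.r_lt hs').2
  set q : ℝ := (P.q s 2 : ℝ) with hq
  have hq0 : 0 < q := by
    rw [hq, hM.q (by omega)]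
    exact_mod_cast Qf_pos _ _ _ _
  have e1 : Real.log q = Real.log (Qf m j (a + s + 1) 2) := by rw [hq, hM.q (by omega)]
  have e2 := h.log_q_ge (i := a + s) hsk 2
  rw [gw2, ← e1] at e2
  push_cast at e2
  have e3 := h.D_le hr'
  have e5 : 1024 * (W m j (a + (s + 1)) : ℝ) ≤ W m j (a + s) := by
    have := h.W_step (i := a + s) hsk
    have h3 : ((2 ^ 10 * W m j (a + s + 1) : ℕ) : ℝ) ≤ (W m j (a + s) : ℝ) := by
      exact_mod_cast this
    push_cast at h3
    have h4 : a + (s + 1) = a + s + 1 := rfl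
    rw [h4]
    linarith
  have c1 := hL.2 (a + (s + 1)) (by omega)
  have c2 : 1024 * (W m j (a + P.h) : ℝ) ≤ W m j (a + (s + 1)) := by
    have d1 := h.W_step (i := a + (s + 1)) hrk
    have d2 : W m j (a + P.h) ≤ W m j (a + (s + 1) + 1) := W_anti m j (by omega)
    have d3 : 2 ^ 10 * W m j (a + P.h) ≤ W m j (a + (s + 1)) :=
      (Nat.mul_le_mul_left _ d2).trans d1
    have d4 : ((2 ^ 10 * W m j (a + P.h) : ℕ) : ℝ) ≤ (W m j (a + (s + 1)) : ℝ) := by
      exact_mod_cast d3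
    push_cast at d4
    linarith
  have c3 := lam_gt
  set B : ℝ := (spb k : ℝ) with hB
  have hB1 : 1 ≤ B := by
    rw [hB]
    exact_mod_cast one_le_spb k
  have c4 : 0 ≤ Real.log B := Real.log_nonneg hB1
  set V : ℝ := (W m j (a + (s + 1)) : ℝ) with hV
  have c5 : (0 : ℝ) ≤ V := Nat.cast_nonneg _
  have c6 : (13 : ℝ) * V ≤ V * lam := by
    rw [mul_comm]
    exact mul_le_mul_of_nonneg_left c3.le c5
  have hPP : (512 : ℝ) * PP m j (a + (s + 1)) = V := by
    have := h.PPm (i := a + (s + 1)) (by omega)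
    have h3 : ((2 ^ 9 * PP m j (a + (s + 1)) : ℕ) : ℝ) = (W m j (a + (s + 1)) : ℝ) := by rw [this]
    push_cast at h3
    linarith
  have hx : V * (13 / 512) ≤ (PP m j (a + (s + 1)) : ℝ) * Real.log (pj j) := by
    have h3 := lam_le_pj j
    have h4 : (PP m j (a + (s + 1)) : ℝ) * 13 ≤ (PP m j (a + (s + 1)) : ℝ) * Real.log (pj j) :=
      mul_le_mul_of_nonneg_left (by linarith) (Nat.cast_nonneg _)
    linarith
  have t1 : (J : ℝ) * ((P.F' (s + 1) : ℝ) / P.F (s + 1)) ≤
      Real.exp (CI + Real.log B - V * (13 / 512)) := by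
    rw [hM.F (s + 1) (by omega) hr.le, hM.F' (s + 1) (by omega) hr.le]
    refine c0.trans (Real.exp_le_exp.2 ?_)
    linarith
  have t2 : (J : ℝ) * (1 / q) ≤ Real.exp (CI + Real.log B - V * (13 / 512)) := by
    have d1 : (1 : ℝ) / q = Real.exp (-Real.log q) := by
      rw [Real.exp_neg, Real.exp_log hq0, one_div]
    rw [d1]
    calc (J : ℝ) * Real.exp (-Real.log q)
        ≤ Real.exp (CI + ((l - l' : ℕ) : ℝ) * Real.log (pj j) / 2) * Real.exp (-Real.log q) :=
          mul_le_mul_of_nonneg_right h2 (Real.exp_pos _).le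
      _ = Real.exp (CI + ((l - l' : ℕ) : ℝ) * Real.log (pj j) / 2 - Real.log q) := by
          rw [← Real.exp_add]
          congr 1
      _ ≤ _ := by
          apply Real.exp_le_exp.2
          have d2 : 1024 * (V * lam) ≤ W m j (a + s) * lam := by
            have := mul_le_mul_of_nonneg_right e5 (show 0 ≤ lam by linarith)
            linarith
          linarith
  have key : (J : ℝ) * P.pc (s + 1) ≤ Real.exp (1 + CI + Real.log B - V * (13 / 512)) := by
    have d1 : P.pc (s + 1) = (P.F' (s + 1) : ℝ) / P.F (s + 1) + 1 / q := rfl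
    rw [d1, mul_add]
    calc (J : ℝ) * ((P.F' (s + 1) : ℝ) / P.F (s + 1)) + J * (1 / q)
        ≤ 2 * Real.exp (CI + Real.log B - V * (13 / 512)) := by linarith
      _ ≤ Real.exp 1 * Real.exp (CI + Real.log B - V * (13 / 512)) := by
          apply mul_le_mul_of_nonneg_right _ (Real.exp_pos _).le
          have := Real.add_one_le_exp (1 : ℝ)
          linarith
      _ = _ := by
          rw [← Real.exp_add]
          congr 1
          ring
  calc (J : ℝ) * P.A (s + 1) * P.pc (s + 1) = P.A (s + 1) * (J * P.pc (s + 1)) := by ring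
    _ ≤ (80 * (200 * B ^ 2) ^ 3) * Real.exp (1 + CI + Real.log B - V * (13 / 512)) := by
        apply mul_le_mul _ key
        · apply mul_nonneg (Nat.cast_nonneg _)
          have d1 : P.pc (s + 1) = (P.F' (s + 1) : ℝ) / P.F (s + 1) + 1 / q := rfl
          rw [d1]
          positivity
        · positivity
        · have := hA.2
          have h3 : (0 : ℝ) ≤ (200 * B ^ 2) ^ 3 := by positivity
          linarith
    _ = Real.exp (Real.log (80 * (200 * B ^ 2) ^ 3) +
          (1 + CI + Real.log B - V * (13 / 512))) := by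
        rw [Real.exp_add, Real.exp_log (by positivity)]
    _ ≤ Real.exp (-δ) := by
        apply Real.exp_le_exp.2
        unfold cA at c1
        linarith

/-- the constant of the free choices -/
noncomputable def GG (m j a : ℕ) : ℝ := Real.exp (42 * (W m j a : ℝ))

theorem Mt.q_le (hM : Mt P m k j a l' l) (h : PD m k j a l' l) {r : ℕ} (hr : r < P.h)
    (i : Fin 3) : (P.q r i : ℝ) ≤ Real.exp ((gw i : ℝ) / 8 * 14 * (W m j a : ℝ)) := by
  have hr' : r < hh m k j a (l - l') := by rw [← hM.h]; exact hr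
  have hrk := (h.r_lt hr').2
  rw [hM.q hr]
  have h0 : (0 : ℝ) < Qf m j (a + r + 1) i := by exact_mod_cast Qf_pos _ _ _ _
  rw [← Real.exp_log h0]
  apply Real.exp_le_exp.2
  have e1 := h.log_q_le hrk i
  have e2 : (W m j (a + r) : ℝ) ≤ W m j a := by exact_mod_cast W_anti m j (by omega)
  have e3 := lam_lt
  have e4 := lam_gt
  refine e1.trans ?_
  have e5 : (0 : ℝ) ≤ gw i := Nat.cast_nonneg _
  have e6 : (0 : ℝ) ≤ W m j a := Nat.cast_nonneg _
  calc (gw i : ℝ) / 8 * (W m j (a + r)) * lam ≤ (gw i : ℝ) / 8 * (W m j a) * 14 := by gcongr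
    _ = _ := by ring

theorem Mt.W_le (hM : Mt P m k j a l' l) (h : PD m k j a l' l) {r : ℕ} (hr : r ≤ P.h) :
    P.W r ≤ Real.exp (21 * (W m j a : ℝ)) := by
  have hh3 := h.hh_le_three
  rw [hM.h] at hr
  have h0 : (0 : ℝ) ≤ W m j a := Nat.cast_nonneg _
  unfold Pr.W
  calc ∏ t ∈ range r, ((P.q t 2 : ℕ) : ℝ) ^ 2
      ≤ ∏ _t ∈ range r, Real.exp (7 * (W m j a : ℝ)) := by
        refine Finset.prod_le_prod (fun _ _ => by positivity) (fun t ht => ?_)
        rw [mem_range] at ht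
        have e1 := hM.q_le h (r := t) (by rw [hM.h]; omega) 2
        rw [gw2] at e1
        calc ((P.q t 2 : ℕ) : ℝ) ^ 2 ≤ (Real.exp (((2 : ℕ) : ℝ) / 8 * 14 * (W m j a : ℝ))) ^ 2 := by
              gcongr
          _ = Real.exp (7 * (W m j a : ℝ)) := by
              rw [← Real.exp_nat_mul]
              congr 1
              push_cast
              ring
    _ = Real.exp (7 * (W m j a : ℝ)) ^ r := by rw [Finset.prod_const, card_range]
    _ ≤ Real.exp (7 * (W m j a : ℝ)) ^ 3 :=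
        pow_le_pow_right₀ (Real.one_le_exp (by positivity)) (by omega)
    _ = _ := by
        rw [← Real.exp_nat_mul]
        congr 1
        push_cast
        ring

/-- **hGamma** -/
theorem Mt.hG (hM : Mt P m k j a l' l) (h : PD m k j a l' l) {r : ℕ} (hr : r < P.h) :
    (P.q r 0 * P.q r 1 : ℕ) * (P.W r * P.q r 1) ≤ GG m j a := by
  have e0 := hM.q_le h hr 0
  have e1 := hM.q_le h hr 1
  have e2 := hM.W_le h hr.le
  rw [gw0] at e0
  rw [gw1] at e1
  have hW : 0 ≤ P.W r := Finset.prod_nonneg (fun _ _ => by positivity)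
  have h0 : (0 : ℝ) ≤ W m j a := Nat.cast_nonneg _
  push_cast
  calc (P.q r 0 : ℝ) * P.q r 1 * (P.W r * P.q r 1)
      ≤ Real.exp (((3 : ℕ) : ℝ) / 8 * 14 * (W m j a : ℝ)) *
          Real.exp (((3 : ℕ) : ℝ) / 8 * 14 * (W m j a : ℝ)) *
          (Real.exp (21 * (W m j a : ℝ)) * Real.exp (((3 : ℕ) : ℝ) / 8 * 14 * (W m j a : ℝ))) := by
        gcongr
    _ = Real.exp (((3 : ℕ) : ℝ) / 8 * 14 * (W m j a : ℝ) +
          ((3 : ℕ) : ℝ) / 8 * 14 * (W m j a : ℝ) +
          (21 * (W m j a : ℝ) + ((3 : ℕ) : ℝ) / 8 * 14 * (W m j a : ℝ))) := by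
        rw [Real.exp_add, Real.exp_add, Real.exp_add]
    _ ≤ _ := by
        unfold GG
        apply Real.exp_le_exp.2
        push_cast
        linarith

theorem Mt.hG' (hM : Mt P m k j a l' l) (h : PD m k j a l' l) : P.W P.h ≤ GG m j a := by
  refine (hM.W_le h le_rfl).trans ?_
  unfold GG
  apply Real.exp_le_exp.2
  have h0 : (0 : ℝ) ≤ W m j a := Nat.cast_nonneg _
  linarith

/-- **the failure number** -/
theorem fail_num {h0 n : ℕ} {δ X Y Nc w : ℝ} (hh3 : h0 ≤ 3) (hNc : Nc ≤ Real.exp Y)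
    (hn : 42 * w + 3 + X + Y ≤ (n + 1 : ℕ) * δ) :
    Nc * ((3 * (h0 : ℝ) + 1) * Real.exp (42 * w) * Real.exp (-δ) ^ (n + 1)) ≤ Real.exp (-X) := by
  have e1 : (3 * (h0 : ℝ) + 1) ≤ Real.exp 3 := by
    have e2 : (h0 : ℝ) ≤ 3 := by exact_mod_cast hh3
    have e3 : (10 : ℝ) ≤ Real.exp 3 := by
      have h1 : Real.exp 3 = Real.exp 1 ^ 3 := by rw [← Real.exp_nat_mul]; norm_num
      rw [h1]
      have h2 := Real.exp_one_gt_d9
      calc (10 : ℝ) ≤ 2.7182818283 ^ 3 := by norm_num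
        _ ≤ Real.exp 1 ^ 3 := by gcongr
    linarith
  calc Nc * ((3 * (h0 : ℝ) + 1) * Real.exp (42 * w) * Real.exp (-δ) ^ (n + 1))
      ≤ Real.exp Y * (Real.exp 3 * Real.exp (42 * w) * Real.exp (-δ) ^ (n + 1)) := by
        gcongr
    _ = Real.exp (Y + (3 + 42 * w + ((n + 1 : ℕ) : ℝ) * (-δ))) := by
        rw [← Real.exp_nat_mul, Real.exp_add, Real.exp_add, Real.exp_add]
    _ ≤ _ := by
        apply Real.exp_le_exp.2
        linarith

/-- the block has the moduli of the pair; `F 0` is the common front (or two or four times a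
front) -/
structure Mt' {κ : Type*} (P : Pr κ) (m k j a l' l : ℕ) : Prop extends Mt P m k j a l' l where
  M : P.M = Nj l
  M' : P.M' = Nj l'
  L0 : P.L0 = Lp m j a
  F0 : Nj (ef m a l) ∣ P.F 0
  F04 : P.F 0 ∣ 4 * Nj (ef m a l)
  F0' : P.F' 0 = P.F 0

theorem Mt'.dvd_F0 (hM : Mt' P m k j a l' l) : Nj (ef m a l) ∣ P.F 0 := hM.F0

theorem Mt'.F0_le (hM : Mt' P m k j a l' l) : P.F 0 ≤ 4 * Nj (ef m a l) :=
  Nat.le_of_dvd (Nat.mul_pos (by norm_num) (Pool.Agent.Helper50.ET.Nj_pos (ef m a l))) hM.F04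

theorem Mt'.F0_pos (hM : Mt' P m k j a l' l) : 0 < P.F 0 :=
  Nat.pos_of_dvd_of_pos hM.F04
    (Nat.mul_pos (by norm_num) (Pool.Agent.Helper50.ET.Nj_pos (ef m a l)))

theorem Mt'.Q_eq (hM : Mt' P m k j a l' l) {r : ℕ} (hr : r < P.h) :
    P.Q r = Qs m j (a + r + 1) := by
  unfold Pr.Q Pool.Agent.Helper27.T4.NN Qs
  exact Finset.prod_congr rfl (fun i _ => hM.toMt.q hr i)

theorem Mt'.L_eq (hM : Mt' P m k j a l' l) (h : PD m k j a l' l) {r : ℕ} (hr : r ≤ P.h) :
    P.L r = Lp m j (a + r) := by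
  have ha := h.a1
  induction r with
  | zero => simp [Pr.L, hM.L0]
  | succ r ih =>
    have e1 := ih (by omega)
    have e2 : P.L (r + 1) = P.L r * P.Q r := by
      unfold Pr.L
      rw [Finset.prod_range_succ, mul_assoc]
    rw [e2, e1, hM.Q_eq (by omega), ← Lp_succ (by omega)]
    rfl

theorem PD.dvd_M (h : PD m k j a l' l) : Nj l' ∣ Nj l := by
  rw [h.Nl]
  exact dvd_mul_right _ _

theorem Mt'.MF (hM : Mt' P m k j a l' l) (h : PD m k j a l' l) {r : ℕ} (hr : r ≤ P.h) :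
    P.M ∣ P.F r := by
  have ha := h.a1
  have hak := h.ak
  have hk := hh_le (m := m) (k := k) (j := j) (a := a) (D := l - l') h.ak
  have hMh := hM.h
  rw [hM.M]
  rcases Nat.eq_zero_or_pos r with h0 | h0
  · subst h0
    refine dvd_trans ?_ hM.dvd_F0
    rw [h.NF ha (by omega)]
    exact dvd_mul_right _ _
  · rw [hM.F r h0 hr, h.NF (by omega) (by omega)]
    exact dvd_mul_right _ _

theorem Mt'.M'F' (hM : Mt' P m k j a l' l) (h : PD m k j a l' l) {r : ℕ} (hr : r ≤ P.h) :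
    P.M' ∣ P.F' r := by
  have ha := h.a1
  have hak := h.ak
  have hk := hh_le (m := m) (k := k) (j := j) (a := a) (D := l - l') h.ak
  have hMh := hM.h
  rcases Nat.eq_zero_or_pos r with h0 | h0
  · subst h0
    rw [hM.F0', hM.M']
    refine dvd_trans ?_ (hM.MF h (Nat.zero_le _))
    rw [hM.M]
    exact h.dvd_M
  · rw [hM.M', hM.F' r h0 hr, h.NF' (by omega) (by omega)]
    exact dvd_mul_right _ _

theorem Mt'.F'F (hM : Mt' P m k j a l' l) (h : PD m k j a l' l) {r : ℕ} (hr : r ≤ P.h) :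
    P.F' r ∣ P.F r := by
  have hak := h.ak
  have hk := hh_le (m := m) (k := k) (j := j) (a := a) (D := l - l') h.ak
  have hMh := hM.h
  rcases Nat.eq_zero_or_pos r with h0 | h0
  · subst h0
    rw [hM.F0']
  · rw [hM.F r h0 hr, hM.F' r h0 hr]
    exact h.F'F (by omega) (by omega)

theorem Mt'.FF (hM : Mt' P m k j a l' l) (h : PD m k j a l' l) {r : ℕ} (hr : r < P.h) :
    P.F (r + 1) ∣ P.F r := by
  have ha := h.a1
  have hak := h.ak
  have hk := hh_le (m := m) (k := k) (j := j) (a := a) (D := l - l') h.ak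
  have hMh := hM.h
  rw [hM.F (r + 1) (by omega) (by omega)]
  rcases Nat.eq_zero_or_pos r with h0 | h0
  · subst h0
    exact (h.FF ha (by omega)).trans hM.dvd_F0
  · rw [hM.F r h0 hr.le]
    exact h.FF (i := a + r) (by omega) (by omega)

theorem Mt'.F'F' (hM : Mt' P m k j a l' l) (h : PD m k j a l' l) {r : ℕ} (hr : r < P.h) :
    P.F' (r + 1) ∣ P.F' r := by
  have ha := h.a1
  have hak := h.ak
  have hk := hh_le (m := m) (k := k) (j := j) (a := a) (D := l - l') h.ak
  have hMh := hM.h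
  rcases Nat.eq_zero_or_pos r with h0 | h0
  · subst h0
    rw [hM.F0']
    exact (hM.F'F h (show 0 + 1 ≤ P.h by omega)).trans (hM.FF h hr)
  · rw [hM.F' (r + 1) (by omega) (by omega), hM.F' r h0 hr.le]
    exact h.FF' (i := a + r) (by omega) (by omega)

theorem coprime_Lp_four (l m j s : ℕ) : (Lp m j s).Coprime (4 * Nj l) := by
  refine Nat.Coprime.mul_right ?_ (coprime_Nj_Lp _ _ _ _).symm
  refine Nat.Coprime.prod_left (fun i _ => Nat.Coprime.prod_left (fun f _ => ?_))
  refine Nat.Coprime.pow_left _ ?_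
  have h2 : (4 : ℕ) = 2 ^ 2 := by norm_num
  rw [h2]
  refine Nat.Coprime.pow_right _ ?_
  refine (Nat.coprime_primes (sp_prime _) Nat.prime_two).2 ?_
  have := lt_sp (3 * i + (f : ℕ))
  omega

theorem Mt'.copL (hM : Mt' P m k j a l' l) (h : PD m k j a l' l) {r : ℕ} (hr : r ≤ P.h) :
    (P.L r).Coprime (P.F 0) := by
  rw [hM.L_eq h hr]
  exact Nat.Coprime.coprime_dvd_right hM.F04 (coprime_Lp_four _ _ _ _)

theorem Mt'.size (hM : Mt' P m k j a l' l) (h : PD m k j a l' l) (hL : Late m k j) {r : ℕ}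
    (hr : r < P.h) : 2 * (P.F r * P.L r) ≤ P.F (r + 1) * P.L (r + 1) := by
  have hr' : r < hh m k j a (l - l') := by rw [← hM.h]; exact hr
  have e1 := h.size hL hr'
  rw [hM.L_eq h hr.le, hM.L_eq h (show r + 1 ≤ P.h by omega), hM.F (r + 1) (by omega) (by omega)]
  refine le_trans ?_ e1
  rcases Nat.eq_zero_or_pos r with h0 | h0
  · subst h0
    have e2 := hM.F0_le
    calc 2 * (P.F 0 * Lp m j (a + 0)) ≤ 2 * ((4 * Nj (ef m a l)) * Lp m j (a + 0)) := by gcongr
      _ = 8 * (Nj (ef m (a + 0) l) * Lp m j (a + 0)) := by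
        have : a + 0 = a := rfl
        rw [this]
        ring
  · rw [hM.F r h0 hr.le]
    exact Nat.mul_le_mul_right _ (by norm_num)

theorem Mt'.zF (hM : Mt' P m k j a l' l) (h : PD m k j a l' l) (hL : Late m k j) {r : ℕ}
    (hr : r < P.h) : 6 * P.F r < P.M' * P.q r 0 := by
  have hr' : r < hh m k j a (l - l') := by rw [← hM.h]; exact hr
  have e1 := h.zF hL hr'
  rw [hM.M', hM.toMt.q hr]
  refine lt_of_le_of_lt ?_ e1
  rcases Nat.eq_zero_or_pos r with h0 | h0
  · subst h0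
    have e2 := hM.F0_le
    have : a + 0 = a := rfl
    rw [this]
    omega
  · rw [hM.F r h0 hr.le]
    omega

theorem Mt'.mid (hM : Mt' P m k j a l' l) (h : PD m k j a l' l) (hL : Late m k j) {r : ℕ}
    (hr : r + 1 < P.h) : P.F (r + 1) ≤ P.F' (r + 1) * P.q r 2 := by
  have hr' : r + 1 < hh m k j a (l - l') := by rw [← hM.h]; exact hr
  have e1 := h.mid hL hr'
  rw [hM.toMt.q (by omega), hM.F (r + 1) (by omega) hr.le, hM.F' (r + 1) (by omega) hr.le]
  exact e1

end

end Pool.Agent.Helper63.T5
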