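import Pool.Agent.Helper22.NEAR.Defs

/-!
# T5a, block NEAR: the exponents of the cases of regular and of random windows (NE10, NE11)
-/

set_option autoImplicit false

namespace Pool.Agent.Helper63.T5

open Finset Pool.Agent.Helper27.T5 Pool.Agent.Helper30.T5
  Pool.Agent.Helper22.SL Pool.Agent.Helper11.T5 Pool.Agent.Helper22.NEAR
open Pool.Agent.Helper5.ET (Nj era bb)
open Pool.Agent.Helper83.T5 (Cps Cps_pos CL CL_pos)

theorem Cd_PN_le {k j t l' l : ℕ} (h : PD (k + 2) k j (t + 1) l' l) :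
    Pool.Agent.Helper39.SL.Cd (PN (k + 2) k j t l' l) ≤ CL k := by
  have h1 : t + 1 + hb (k + 2) k j t l' l ≤ k + 1 := hh_le h.ak
  have e : Pool.Agent.Helper39.SL.Cd (PN (k + 2) k j t l' l) =
      ∏ r ∈ range (hb (k + 2) k j t l' l), Cps (t + r) := rfl
  rw [e]
  generalize hb (k + 2) k j t l' l = b at *
  have e2 : ∏ r ∈ range b, Cps (t + r) = ∏ r ∈ Ico t (t + b), Cps r := by
    rw [Finset.prod_Ico_eq_prod_range, Nat.add_sub_cancel_left]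
  rw [e2]
  unfold CL
  apply Finset.prod_le_prod_of_subset_of_one_le'
  · intro r hr
    rw [mem_Ico] at hr
    rw [mem_range]
    omega
  · intro r _ _
    exact Cps_pos r

theorem hb_le_three {k j t l' l : ℕ} (h : PD (k + 2) k j (t + 1) l' l) :
    hb (k + 2) k j t l' l ≤ 3 := h.hh_le_three

theorem two_pow_le_4096 {b : ℕ} (h : b ≤ 3) : 2 ^ (4 * b) ≤ 4096 :=
  (Nat.pow_le_pow_right (by norm_num) (show 4 * b ≤ 12 by omega)).trans (by norm_num)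

/-- the bound of the number of solutions, generic constants -/
theorem num_core {k : ℕ} {CV : ℝ} (hCV : 0 ≤ CV) (A d p : ℕ) {j t l' l n : ℕ}
    (hp : ∀ b ≤ 3, 2 ^ (4 * b) ≤ p) (hl : bb 0 ≤ l) (h : PD (k + 2) k j (t + 1) l' l)
    (hn : n + 1 ≤ A * rt (k + 2) j ^ d) :
    ((2 * ((n + 1) ^ 2 ^ (4 * hb (k + 2) k j t l' l) *
        (Pool.Agent.Helper39.SL.Cd (PN (k + 2) k j t l' l) * (CL k * RV k l CV))) : ℕ) : ℝ) ≤
      (2 * ((A : ℝ) ^ p * ((CL k : ℝ) * ((CL k : ℝ) * CV)))) *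
        (l : ℝ) ^ (((d * p + 1 : ℕ) : ℝ) / ((k + 2 : ℕ) : ℝ)) := by
  have hm : 0 < k + 2 := by omega
  have hlp : (0 : ℝ) < l := by
    have h0 := Pool.Agent.Helper30.T5.bb_pos 0
    exact_mod_cast lt_of_lt_of_le h0 hl
  have h1 : (n + 1) ^ 2 ^ (4 * hb (k + 2) k j t l' l) ≤ (A * rt (k + 2) j ^ d) ^ p :=
    (Nat.pow_le_pow_right (by omega) (hp _ (hb_le_three h))).trans (Nat.pow_le_pow_left hn _)
  have h2 := Cd_PN_le h
  have h3 : 2 * ((n + 1) ^ 2 ^ (4 * hb (k + 2) k j t l' l) *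
      (Pool.Agent.Helper39.SL.Cd (PN (k + 2) k j t l' l) * (CL k * RV k l CV))) ≤
      2 * ((A * rt (k + 2) j ^ d) ^ p * (CL k * (CL k * RV k l CV))) := by gcongr
  have h4 : (RV k l CV : ℝ) ≤ CV * (l : ℝ) ^ ((1 : ℝ) / ((k + 2 : ℕ) : ℝ)) := by
    unfold RV
    exact Nat.floor_le (by positivity)
  have h5 : (rt (k + 2) j : ℝ) ^ (d * p) ≤ (l : ℝ) ^ (((d * p : ℕ) : ℝ) / ((k + 2 : ℕ) : ℝ)) :=
    rt_pow_le_rpow_l hm hl h.el
  have h6 : ((2 * ((A * rt (k + 2) j ^ d) ^ p * (CL k * (CL k * RV k l CV))) : ℕ) : ℝ) =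
      2 * ((A : ℝ) ^ p * ((rt (k + 2) j : ℝ) ^ (d * p)) * ((CL k : ℝ) * ((CL k : ℝ) * RV k l CV))) := by
    push_cast
    rw [mul_pow, ← pow_mul]
  have h7 : (l : ℝ) ^ (((d * p + 1 : ℕ) : ℝ) / ((k + 2 : ℕ) : ℝ)) =
      (l : ℝ) ^ (((d * p : ℕ) : ℝ) / ((k + 2 : ℕ) : ℝ)) * (l : ℝ) ^ ((1 : ℝ) / ((k + 2 : ℕ) : ℝ)) := by
    rw [← Real.rpow_add hlp, ← add_div, Nat.cast_add (d * p) 1, Nat.cast_one]
  have h8 : ((2 * ((n + 1) ^ 2 ^ (4 * hb (k + 2) k j t l' l) *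
      (Pool.Agent.Helper39.SL.Cd (PN (k + 2) k j t l' l) * (CL k * RV k l CV))) : ℕ) : ℝ) ≤
      ((2 * ((A * rt (k + 2) j ^ d) ^ p * (CL k * (CL k * RV k l CV))) : ℕ) : ℝ) := by
    exact_mod_cast h3
  refine h8.trans ?_
  rw [h6, h7]
  have h9 : (0 : ℝ) ≤ (l : ℝ) ^ (((d * p : ℕ) : ℝ) / ((k + 2 : ℕ) : ℝ)) := by positivity
  calc 2 * ((A : ℝ) ^ p * ((rt (k + 2) j : ℝ) ^ (d * p)) *
        ((CL k : ℝ) * ((CL k : ℝ) * RV k l CV)))
      ≤ 2 * ((A : ℝ) ^ p * ((l : ℝ) ^ (((d * p : ℕ) : ℝ) / ((k + 2 : ℕ) : ℝ))) *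
        ((CL k : ℝ) * ((CL k : ℝ) * (CV * (l : ℝ) ^ ((1 : ℝ) / ((k + 2 : ℕ) : ℝ)))))) := by
        gcongr
    _ = _ := by ring

theorem core_const_nonneg {k : ℕ} {CV : ℝ} (hCV : 0 ≤ CV) (A p : ℕ) :
    (0 : ℝ) ≤ 2 * ((A : ℝ) ^ p * ((CL k : ℝ) * ((CL k : ℝ) * CV))) := by positivity

/-- NE10: exponents of the case of regular windows -/
theorem num_reg : ∃ E : ℕ, ∀ k CV, 0 ≤ CV → ∃ (C1 : ℝ) (K0 : ℕ), 0 ≤ C1 ∧
    ∀ j t l' l, K0 ≤ l' → PD (k + 2) k j (t + 1) l' l → CaseReg k j t l' l → ∃ n : ℕ, 1 ≤ n ∧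
      42 * (W (k + 2) j (t + 1) : ℝ) + 3 + W (k + 2) j (k + 1) + 90 * W (k + 2) j (t + 1) ≤
        (n + 1 : ℕ) * dReg k j t l' l ∧
      ((2 * ((n + 1) ^ 2 ^ (4 * hb (k + 2) k j t l' l) *
        (Pool.Agent.Helper39.SL.Cd (PN (k + 2) k j t l' l) *
          (Pool.Agent.Helper83.T5.CL k * RV k l CV))) : ℕ) : ℝ) ≤
        C1 * (l : ℝ) ^ ((E : ℝ) / ((k + 2 : ℕ) : ℝ)) := by
  refine ⟨3 * 4096 + 1, fun k CV hCV => ?_⟩
  refine ⟨_, bb 0, core_const_nonneg (k := k) hCV 27201 4096, ?_⟩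
  intro j t l' l hl' h _
  have hr := Pool.Agent.Helper30.T5.rt_pos (k + 2) j
  have hpos : 0 < rt (k + 2) j ^ 3 := pow_pos hr _
  refine ⟨27200 * rt (k + 2) j ^ 3, by omega, ?_, ?_⟩
  · have h1 : t + 1 + hb (k + 2) k j t l' l ≤ k + 1 := hh_le h.ak
    have h3 := hb_le_three h
    have e : sb (k + 2) k j t l' l + 1 = t + 1 + hb (k + 2) k j t l' l := by
      unfold sb; ring
    have h4 : W (k + 2) j (t + 1) =
        rt (k + 2) j ^ hb (k + 2) k j t l' l * W (k + 2) j (sb (k + 2) k j t l' l + 1) := by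
      rw [e]
      exact W_add (by omega)
    have h5 : rt (k + 2) j ^ hb (k + 2) k j t l' l ≤ rt (k + 2) j ^ 3 :=
      Nat.pow_le_pow_right hr h3
    have h6 : W (k + 2) j (t + 1) ≤ rt (k + 2) j ^ 3 * W (k + 2) j (sb (k + 2) k j t l' l + 1) := by
      rw [h4]
      exact Nat.mul_le_mul_right _ h5
    have h7 : W (k + 2) j (k + 1) ≤ W (k + 2) j (t + 1) := W_anti _ _ (by omega)
    have h8 := Pool.Agent.Helper30.T5.W_pos (k + 2) j (t + 1)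
    unfold dReg
    have h6' : (W (k + 2) j (t + 1) : ℝ) ≤
        (rt (k + 2) j : ℝ) ^ 3 * (W (k + 2) j (sb (k + 2) k j t l' l + 1) : ℝ) := by
      exact_mod_cast h6
    have h7' : (W (k + 2) j (k + 1) : ℝ) ≤ W (k + 2) j (t + 1) := by exact_mod_cast h7
    have h8' : (1 : ℝ) ≤ W (k + 2) j (t + 1) := by exact_mod_cast h8
    have h9 : (0 : ℝ) ≤ (W (k + 2) j (sb (k + 2) k j t l' l + 1) : ℝ) := by positivity
    push_cast
    nlinarith
  · refine num_core hCV 27201 3 4096 (fun b hb => two_pow_le_4096 hb) (hl'.trans h.lt.le) h ?_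
    omega

/-- NE11: exponents of the case of random windows -/
theorem num_bot : ∃ E : ℕ, ∀ k c CV, 0 ≤ CV → ∃ (C1 : ℝ) (K0 : ℕ), 0 ≤ C1 ∧
    ∀ j t l' l, K0 ≤ l' → PD (k + 2) k j (t + 1) l' l → CaseBot c k j t l' l → ∃ n : ℕ, 1 ≤ n ∧
      42 * (W (k + 2) j (t + 1) : ℝ) + 3 + W (k + 2) j (k + 1) + 90 * W (k + 2) j (t + 1) ≤
        (n + 1 : ℕ) ∧
      ((2 * ((n + 1) ^ 2 ^ (4 * hb (k + 2) k j t l' l) *
        (Pool.Agent.Helper39.SL.Cd (PN (k + 2) k j t l' l) *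
          (Pool.Agent.Helper83.T5.CL k * RV k l CV))) : ℕ) : ℝ) ≤
        C1 * (l : ℝ) ^ ((E : ℝ) / ((k + 2 : ℕ) : ℝ)) := by
  refine ⟨4 * 4096 + 1, fun k c CV hCV => ?_⟩
  refine ⟨_, bb 0, core_const_nonneg (k := k) hCV (136 * 2 ^ (k + 2) + 1) 4096, ?_⟩
  intro j t l' l hl' h hC
  have hr := Pool.Agent.Helper30.T5.rt_pos (k + 2) j
  have hpos : 0 < rt (k + 2) j ^ 4 := pow_pos hr _
  have h2k : 0 < 2 ^ (k + 2) := by positivity
  have hpos2 : 0 < 2 ^ (k + 2) * rt (k + 2) j ^ 4 := Nat.mul_pos h2k hpos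
  refine ⟨136 * (2 ^ (k + 2) * rt (k + 2) j ^ 4), by omega, ?_, ?_⟩
  · have h1 : t + 1 + hb (k + 2) k j t l' l ≤ k + 1 := hh_le h.ak
    have h3 := hb_le_three h
    have e : k + 1 = t + 1 + hb (k + 2) k j t l' l := by
      have := hC.1
      unfold sb at this
      omega
    have h4 : W (k + 2) j (t + 1) =
        rt (k + 2) j ^ hb (k + 2) k j t l' l * W (k + 2) j (k + 1) := by
      rw [e]
      exact W_add (by omega)
    have h5 : rt (k + 2) j ^ hb (k + 2) k j t l' l ≤ rt (k + 2) j ^ 3 :=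
      Nat.pow_le_pow_right hr h3
    have h10 : W (k + 2) j (k + 1) ≤ 2 ^ (k + 2) * rt (k + 2) j := by
      unfold W rt
      rw [← pow_add]
      apply Nat.pow_le_pow_right (by norm_num)
      have h11 := Nat.div_add_mod (la j) (k + 2)
      have h12 := Nat.mod_lt (la j) (show 0 < k + 2 by omega)
      generalize la j / (k + 2) = q at *
      generalize la j % (k + 2) = r at *
      have e3 : (k + 2) * q = (k + 1) * q + q := by ring
      generalize (k + 1) * q = z at *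
      omega
    have h6 : W (k + 2) j (t + 1) ≤ 2 ^ (k + 2) * rt (k + 2) j ^ 4 := by
      rw [h4]
      calc rt (k + 2) j ^ hb (k + 2) k j t l' l * W (k + 2) j (k + 1)
          ≤ rt (k + 2) j ^ 3 * (2 ^ (k + 2) * rt (k + 2) j) := Nat.mul_le_mul h5 h10
        _ = 2 ^ (k + 2) * rt (k + 2) j ^ 4 := by ring
    have h7 : W (k + 2) j (k + 1) ≤ W (k + 2) j (t + 1) := W_anti _ _ (by omega)
    have h8 := Pool.Agent.Helper30.T5.W_pos (k + 2) j (t + 1)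
    have h9 : 42 * W (k + 2) j (t + 1) + 3 + W (k + 2) j (k + 1) + 90 * W (k + 2) j (t + 1) ≤
        136 * (2 ^ (k + 2) * rt (k + 2) j ^ 4) + 1 := by omega
    exact_mod_cast h9
  · refine num_core hCV (136 * 2 ^ (k + 2) + 1) 4 4096 (fun b hb => two_pow_le_4096 hb)
      (hl'.trans h.lt.le) h ?_
    have e5 : (136 * 2 ^ (k + 2) + 1) * rt (k + 2) j ^ 4 =
        136 * (2 ^ (k + 2) * rt (k + 2) j ^ 4) + rt (k + 2) j ^ 4 := by ring
    omega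

end Pool.Agent.Helper63.T5
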