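import Pool.Agent.Helper63.T5.SLNum
import Pool.Agent.Helper55.T5.PrOk

/-!
# T5a, block SL: the instance for a pair of states (everything except `hL`)
-/

set_option autoImplicit false

namespace Pool.Agent.Helper63.T5

open Finset Pool.Agent.Helper5.ET Pool.Agent.Helper27.T4 Pool.Agent.Helper27.T5
  Pool.Agent.Helper30.T5 Pool.Agent.Helper22.HW Pool.Agent.Helper22.SL Pool.Agent.Helper55.T5

variable {κ : Type*} {m k j a l' l F0 : ℕ} {sk : ℕ → ℕ → Fin 3 → (Fin 3 → ℕ) → κ}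
  {Y : ℕ → Finset (Fin 3 → ℕ)}

/-- the front `F0`: the common front, or a front of the upper state times `1`, `2` or `4` -/
theorem PD.frOk (h : PD m k j a l' l) (h1 : Nj (ef m a l) ∣ F0) (h2 : F0 ∣ 4 * Nj (ef m a l)) :
    FrOk m l' l a F0 := by
  have ha := h.a1
  have hak := h.ak
  have hd : Nj l ∣ Nj (ef m a l) := by
    rw [h.NF ha (by omega)]
    exact dvd_mul_right _ _
  refine ⟨Nat.pos_of_dvd_of_pos h2 (Nat.mul_pos (by norm_num)
    (Pool.Agent.Helper50.ET.Nj_pos _)), hd.trans h1, (h.dvd_M.trans hd).trans h1,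
    (h.FF ha (by omega)).trans h1, ((h.F'F (by omega) (by omega)).trans
      (h.FF ha (by omega))).trans h1, fun s =>
      Nat.Coprime.coprime_dvd_right h2 (coprime_Lp_four _ _ _ _)⟩

theorem PD.mt (h : PD m k j a l' l) (h1 : Nj (ef m a l) ∣ F0) (h2 : F0 ∣ 4 * Nj (ef m a l)) :
    Mt' (prOf m sk Y l' l a (hh m k j a (l - l')) F0) m k j a l' l := by
  have he := h.el
  subst he
  refine { h := rfl, p := fun r _ i => rfl, z := fun r _ i => rfl, F := ?_, F' := ?_, M := rfl,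
           M' := rfl, L0 := rfl, F0 := h1, F04 := h2, F0' := rfl }
  · intro r hr1 _
    obtain ⟨s, rfl⟩ : ∃ s, r = s + 1 := ⟨r - 1, by omega⟩
    exact prOf_F_succ s
  · intro r hr1 _
    obtain ⟨s, rfl⟩ : ∃ s, r = s + 1 := ⟨r - 1, by omega⟩
    exact prOf_F'_succ s

/-- **`P.Ok` for the pair** -/
theorem PD.ok {Mk : κ → ℕ} (h : PD m k j a l' l) (hL : Late m k j) (hsk : SKey Mk m sk)
    (hY : ∀ i, Pool.Agent.Helper73.T5.SAdm (fun f : Fin 3 => sp (3 * i + f)) (zz m j i) (Y i))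
    (h1 : Nj (ef m a l) ∣ F0) (h2 : F0 ∣ 4 * Nj (ef m a l)) :
    (prOf m sk Y l' l a (hh m k j a (l - l')) F0).Ok Mk := by
  have hMt := h.mt (sk := sk) (Y := Y) h1 h2
  have he := h.el
  have hak := h.ak
  have hkm := h.km
  have hhk := hh_le (m := m) (k := k) (j := j) (a := a) (D := l - l') h.ak
  have hF := h.frOk h1 h2
  subst he
  refine prOf_ok hsk h.big h.a1 (by omega) h.lt h.el' hF hY ?_ ?_ ?_
  · intro r hr
    exact hMt.size h hL hr
  · intro r hr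
    exact hMt.zF h hL hr
  · intro r hr
    exact h.mid hL hr

/-- **hA, hB, hGamma for the pair** -/
theorem PD.hA (h : PD m k j a l' l) {CI : ℝ} (hL : LateC m k j (cA k CI))
    (h1 : Nj (ef m a l) ∣ F0) (h2 : F0 ∣ 4 * Nj (ef m a l)) {I : ℕ}
    (hI : (I : ℝ) ≤ Real.exp (CI + ((l - l' : ℕ) : ℝ) * Real.log (pj j) / 2)) {δ : ℝ}
    (hδ : δ ≤ W m j (a + hh m k j a (l - l'))) :
    ∀ r < (prOf m sk Y l' l a (hh m k j a (l - l')) F0).h,
      80 * I * (prOf m sk Y l' l a (hh m k j a (l - l')) F0).A r *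
        (prOf m sk Y l' l a (hh m k j a (l - l')) F0).p r 0 *
        (prOf m sk Y l' l a (hh m k j a (l - l')) F0).p r 2 *
        Real.sqrt ((prOf m sk Y l' l a (hh m k j a (l - l')) F0).q r 1) ≤
      Real.exp (-δ) * (prOf m sk Y l' l a (hh m k j a (l - l')) F0).q r 1 :=
  fun _ hr => (h.mt (sk := sk) (Y := Y) h1 h2).toMt.hA h hL hI hδ hr

theorem PD.hB (h : PD m k j a l' l) {CI : ℝ} (hL : LateC m k j (cA k CI))
    (h1 : Nj (ef m a l) ∣ F0) (h2 : F0 ∣ 4 * Nj (ef m a l)) {Ir : ℕ → ℕ}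
    (hI1 : ∀ r, 1 ≤ r → r < hh m k j a (l - l') → l - l' ≤ ef m (a + r) l' - l' →
      (Ir r : ℝ) ≤ Real.exp CI)
    (hI2 : ∀ r, 1 ≤ r → r < hh m k j a (l - l') →
      (Ir r : ℝ) ≤ Real.exp (CI + ((l - l' : ℕ) : ℝ) * Real.log (pj j) / 2)) {δ : ℝ}
    (hδ : δ ≤ W m j (a + hh m k j a (l - l'))) :
    ∀ r < (prOf m sk Y l' l a (hh m k j a (l - l')) F0).h, 1 ≤ r →
      Ir r * (prOf m sk Y l' l a (hh m k j a (l - l')) F0).A r *
        (prOf m sk Y l' l a (hh m k j a (l - l')) F0).pc r ≤ Real.exp (-δ) :=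
  fun r hr hr1 => (h.mt (sk := sk) (Y := Y) h1 h2).toMt.hB h hL hδ hr hr1 (hI1 r hr1 hr)
    (hI2 r hr1 hr)

theorem PD.hG (h : PD m k j a l' l) (h1 : Nj (ef m a l) ∣ F0) (h2 : F0 ∣ 4 * Nj (ef m a l)) :
    ∀ r < (prOf m sk Y l' l a (hh m k j a (l - l')) F0).h,
      ((prOf m sk Y l' l a (hh m k j a (l - l')) F0).q r 0 *
        (prOf m sk Y l' l a (hh m k j a (l - l')) F0).q r 1 : ℕ) *
      ((prOf m sk Y l' l a (hh m k j a (l - l')) F0).W r *
        (prOf m sk Y l' l a (hh m k j a (l - l')) F0).q r 1) ≤ GG m j a :=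
  fun _ hr => (h.mt (sk := sk) (Y := Y) h1 h2).toMt.hG h hr

theorem PD.hG' (h : PD m k j a l' l) (h1 : Nj (ef m a l) ∣ F0) (h2 : F0 ∣ 4 * Nj (ef m a l)) :
    (prOf m sk Y l' l a (hh m k j a (l - l')) F0).W
      (prOf m sk Y l' l a (hh m k j a (l - l')) F0).h ≤ GG m j a :=
  (h.mt (sk := sk) (Y := Y) h1 h2).toMt.hG' h

end Pool.Agent.Helper63.T5
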