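import Pool.Agent.Helper22.SL.Defs
import Pool.Agent.Helper27.T5.Sch
import Pool.Agent.Helper30.T5.Stat
import Pool.Agent.Helper37.T5.Fc

/-!
# T5a, block SL: the inequalities of the schedule (natural numbers)

Pair of used states `l' < l` of the era `j`; `a` is the base level: the common front, or `1` when
there is no common front.  The level `r` of the block is the static level `a + r + 1`; its fronts
are `ef m (a + r) l`, `ef m (a + r + 1) l`.
-/

set_option autoImplicit false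

namespace Pool.Agent.Helper63.T5

open Finset Pool.Agent.Helper5.ET Pool.Agent.Helper27.T5 Pool.Agent.Helper30.T5

/-- the last level: the first one with `7 W ≤ 20 D`, or the last one of all -/
theorem exists_hh (m k j a D : ℕ) :
    ∃ h, 1 ≤ h ∧ (7 * W m j (a + h) ≤ 20 * D ∨ k + 1 ≤ a + h) := ⟨k + 1, by omega, by omega⟩

open Classical in
/-- number of static levels used for the pair -/
noncomputable def hh (m k j a D : ℕ) : ℕ := Nat.find (exists_hh m k j a D)

theorem hh_pos (m k j a D : ℕ) : 1 ≤ hh m k j a D := (Nat.find_spec (exists_hh m k j a D)).1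

theorem hh_spec (m k j a D : ℕ) :
    7 * W m j (a + hh m k j a D) ≤ 20 * D ∨ k + 1 ≤ a + hh m k j a D :=
  (Nat.find_spec (exists_hh m k j a D)).2

theorem lt_hh {m k j a D h : ℕ} (h1 : 1 ≤ h) (h2 : h < hh m k j a D) :
    20 * D < 7 * W m j (a + h) ∧ a + h < k + 1 := by
  have := Nat.find_min (exists_hh m k j a D) h2
  omega

theorem hh_le {m k j a D : ℕ} (ha : a ≤ k) : a + hh m k j a D ≤ k + 1 := by
  rcases Nat.lt_or_ge 1 (hh m k j a D) with h | h
  · have := lt_hh (m := m) (k := k) (j := j) (a := a) (D := D)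
      (h := hh m k j a D - 1) (by omega) (by omega)
    omega
  · omega

/-- the data of a pair of states of one era, base level `a` -/
structure PD (m k j a l' l : ℕ) : Prop where
  km : k + 2 ≤ m
  big : 10 * m ≤ la j
  a1 : 1 ≤ a
  ak : a ≤ k
  el : era l = j
  el' : era l' = j
  u : used m l
  u' : used m l'
  lt : l' < l
  D7 : 20 * (l - l') < 7 * W m j a
  jump : ∀ i, a < i → i ≤ k + 1 → ef m i l' ≠ ef m i l
  D2 : a + 1 ≤ k → PP m j (a + 2) < 2 * (l - l')

theorem div_ge {m j : ℕ} (hm : 0 < m) (hb : 10 * m ≤ la j) : 10 ≤ la j / m :=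
  (Nat.le_div_iff_mul_le hm).2 hb

/-- common front -/
theorem PD.of_fc {m k j l' l : ℕ} (km : k + 2 ≤ m) (big : 10 * m ≤ la j) (el : era l = j)
    (el' : era l' = j) (u : used m l) (u' : used m l') (hl : l' ≤ l) (h1 : 1 ≤ fc m k l' l)
    (h2 : fc m k l' l ≤ k) : PD m k j (fc m k l' l) l' l := by
  have h10 := div_ge (show 0 < m by omega) big
  have hlt := Pool.Agent.Helper37.T5.lt_of_fc hl h2
  have hd := Pool.Agent.Helper37.T5.dist_lt_of_fc el el' h10 km hl h1
  have hP := PP_mul big (show fc m k l' l < m by omega)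
  refine ⟨km, big, h1, h2, el, el', u, u', hlt, by omega, ?_, ?_⟩
  · intro i hi1 hi2
    exact Pool.Agent.Helper37.T5.fc_ne hi1 hi2
  · intro h3
    exact Pool.Agent.Helper37.T5.dist_gt_of_fc el el' h10 km hl h3

/-- no common front -/
theorem PD.of_zero {m k j l' l : ℕ} (km : k + 2 ≤ m) (big : 10 * m ≤ la j) (hk : 1 ≤ k)
    (el : era l = j) (el' : era l' = j) (u : used m l) (u' : used m l') (hl : l' ≤ l)
    (h0 : fc m k l' l = 0) (h7 : 20 * (l - l') < 7 * W m j 1) : PD m k j 1 l' l := by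
  have h10 := div_ge (show 0 < m by omega) big
  have hlt := Pool.Agent.Helper37.T5.lt_of_fc (m := m) (k := k) hl (by omega)
  refine ⟨km, big, le_rfl, hk, el, el', u, u', hlt, h7, ?_, ?_⟩
  · intro i hi1 hi2
    exact Pool.Agent.Helper37.T5.fc_ne (by omega) hi2
  · intro h3
    have h4 := Pool.Agent.Helper37.T5.dist_gt_of_fc el el' h10 km hl
      (show fc m k l' l + 1 ≤ k by omega)
    rw [h0] at h4
    have h5 := PP_anti (m := m) (j := j) (show 0 + 2 ≤ 1 + 2 by omega)
    omega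

/-- in the case without common front the distance is at least half a step of the second front -/
theorem dist_of_zero {m k j l' l : ℕ} (km : k + 2 ≤ m) (big : 10 * m ≤ la j) (hk : 1 ≤ k)
    (el : era l = j) (el' : era l' = j) (hl : l' ≤ l) (h0 : fc m k l' l = 0) :
    PP m j 2 < 2 * (l - l') := by
  have h10 := div_ge (show 0 < m by omega) big
  have h4 := Pool.Agent.Helper37.T5.dist_gt_of_fc el el' h10 km hl
    (show fc m k l' l + 1 ≤ k by omega)
  rwa [h0] at h4

section pair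

variable {m k j a l' l : ℕ}

theorem PD.r_lt (h : PD m k j a l' l) {r : ℕ} (hr : r < hh m k j a (l - l')) :
    20 * (l - l') < 7 * W m j (a + r) ∧ a + r ≤ k := by
  rcases Nat.eq_zero_or_pos r with h0 | h0
  · subst h0
    exact ⟨h.D7, h.ak⟩
  · have := lt_hh h0 hr
    exact ⟨this.1, by omega⟩

theorem PD.W_step (h : PD m k j a l' l) {i : ℕ} (hi : i ≤ k) :
    2 ^ 10 * W m j (i + 1) ≤ W m j i := by
  have hm := h.km
  rw [Pool.Agent.Helper27.T5.W_succ (j := j) (show i < m by omega)]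
  exact Nat.mul_le_mul_right _ (rt_ge h.big (by omega))

theorem PD.PPm (h : PD m k j a l' l) {i : ℕ} (hi : i ≤ k + 1) : 2 ^ 9 * PP m j i = W m j i :=
  PP_mul h.big (by have := h.km; omega)

/-- at most three levels -/
theorem PD.hh_le_three (h : PD m k j a l' l) : hh m k j a (l - l') ≤ 3 := by
  by_contra hc
  have h1 := lt_hh (m := m) (k := k) (j := j) (a := a) (D := l - l') (h := 3) (by omega) (by omega)
  have h2 := h.D2 (by omega)
  have h3 := h.PPm (i := a + 2) (by omega)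
  have h4 := h.W_step (i := a + 2) (by omega)
  have e : a + 2 + 1 = a + 3 := rfl
  rw [e] at h4
  omega

/-- the owner prime of the era -/
noncomputable def pj (j : ℕ) : ℕ := pr (Pool.Agent.Helper27.T4.fam j)

theorem pj_pos (j : ℕ) : 0 < pj j := (pr_prime _).pos

theorem PD.Nl (h : PD m k j a l' l) : Nj l = Nj l' * pj j ^ (l - l') := by
  rw [Nj_era h.lt.le (h.el'.trans h.el.symm), h.el]
  rfl

theorem PD.NF (h : PD m k j a l' l) {i : ℕ} (hi1 : 1 ≤ i) (hi : i ≤ k + 1) :
    Nj (ef m i l) = Nj l * pj j ^ (ef m i l - l) := by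
  have hm := h.km
  have hb : 10 * m ≤ la (era l) := by rw [h.el]; exact h.big
  rw [Nj_ef h.u hb hi1 (by omega), h.el]
  rfl

theorem PD.NF' (h : PD m k j a l' l) {i : ℕ} (hi1 : 1 ≤ i) (hi : i ≤ k + 1) :
    Nj (ef m i l') = Nj l' * pj j ^ (ef m i l' - l') := by
  have hm := h.km
  have hb : 10 * m ≤ la (era l') := by rw [h.el']; exact h.big
  rw [Nj_ef h.u' hb hi1 (by omega), h.el']
  rfl

/-- leads of the fronts -/
theorem PD.lead (h : PD m k j a l' l) {i : ℕ} (hi : i ≤ k + 1) :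
    l < ef m i l ∧ 1024 * (ef m i l - l) ≤ 13 * W m j i ∧
      11 * W m j i < 1024 * (ef m i l - l) := by
  have hm := h.km
  have hb : 10 * m ≤ la (era l) := by rw [h.el]; exact h.big
  have h1 := two_ef_le m i l
  have h2 := lt_ef hb (show i < m by omega)
  have h3 := lt_ef_sub hb (show i < m by omega)
  have h4 := h.PPm hi
  rw [h.el] at h1 h3
  exact ⟨h2, by omega, h3⟩

theorem PD.lead' (h : PD m k j a l' l) {i : ℕ} (hi : i ≤ k + 1) :
    l' < ef m i l' ∧ 1024 * (ef m i l' - l') ≤ 13 * W m j i ∧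
      11 * W m j i < 1024 * (ef m i l' - l') := by
  have hm := h.km
  have hb : 10 * m ≤ la (era l') := by rw [h.el']; exact h.big
  have h1 := two_ef_le m i l'
  have h2 := lt_ef hb (show i < m by omega)
  have h3 := lt_ef_sub hb (show i < m by omega)
  have h4 := h.PPm hi
  rw [h.el'] at h1 h3
  exact ⟨h2, by omega, h3⟩

theorem PD.ef_le (h : PD m k j a l' l) (i : ℕ) : ef m i l' ≤ ef m i l :=
  ef_mono m i h.lt.le (h.el'.trans h.el.symm)

/-- fronts of different levels -/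
theorem PD.ef_anti (h : PD m k j a l' l) {i i' : ℕ} (hi : i ≤ i') (hi' : i' ≤ k + 1) :
    ef m i' l ≤ ef m i l := by
  have hm := h.km
  have hb : 10 * m ≤ la (era l) := by rw [h.el]; exact h.big
  exact Pool.Agent.Helper27.T5.ef_anti hb hi (by omega)

theorem PD.ef_anti' (h : PD m k j a l' l) {i i' : ℕ} (hi : i ≤ i') (hi' : i' ≤ k + 1) :
    ef m i' l' ≤ ef m i l' := by
  have hm := h.km
  have hb : 10 * m ≤ la (era l') := by rw [h.el']; exact h.big
  exact Pool.Agent.Helper27.T5.ef_anti hb hi (by omega)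

/-- the jump of a front -/
theorem PD.mu (h : PD m k j a l' l) {i : ℕ} (hi1 : a < i) (hi : i ≤ k + 1) :
    ef m i l' + PP m j i ≤ ef m i l ∧ ef m i l < ef m i l' + (l - l') + PP m j i ∧
      ef m i l' + (l - l') < ef m i l + PP m j i := by
  have hm := h.km
  have h10 := div_ge (show 0 < m by omega) h.big
  have hp : 0 < PP m j i := PP_pos h.big (by omega)
  exact ⟨Pool.Agent.Helper37.T5.ef_jump h.el h.el' h.lt.le (h.jump i hi1 hi),
    Pool.Agent.Helper37.T5.ef_le_add h.el h.el' hp,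
    Pool.Agent.Helper37.T5.add_le_ef h.el h.el' h.lt.le hp⟩

theorem PD.FF (h : PD m k j a l' l) {i : ℕ} (hi1 : 1 ≤ i) (hi : i + 1 ≤ k + 1) :
    Nj (ef m (i + 1) l) ∣ Nj (ef m i l) := by
  rw [h.NF hi1 (by omega), h.NF (by omega) hi]
  have := h.ef_anti (show i ≤ i + 1 by omega) hi
  exact Nat.mul_dvd_mul_left _ (pow_dvd_pow _ (by omega))

theorem PD.FF' (h : PD m k j a l' l) {i : ℕ} (hi1 : 1 ≤ i) (hi : i + 1 ≤ k + 1) :
    Nj (ef m (i + 1) l') ∣ Nj (ef m i l') := by
  rw [h.NF' hi1 (by omega), h.NF' (by omega) hi]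
  have := h.ef_anti' (show i ≤ i + 1 by omega) hi
  exact Nat.mul_dvd_mul_left _ (pow_dvd_pow _ (by omega))

/-- the fronts in units of the lower state -/
theorem PD.NF_low (h : PD m k j a l' l) {i : ℕ} (hi1 : 1 ≤ i) (hi : i ≤ k + 1) :
    Nj (ef m i l) = Nj l' * pj j ^ (ef m i l - l') := by
  rw [h.NF hi1 hi, h.Nl, mul_assoc, ← pow_add]
  have := (h.lead hi).1
  have := h.lt
  congr 2
  omega

theorem PD.F'F (h : PD m k j a l' l) {i : ℕ} (hi1 : 1 ≤ i) (hi : i ≤ k + 1) :
    Nj (ef m i l') ∣ Nj (ef m i l) := by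
  rw [h.NF_low hi1 hi, h.NF' hi1 hi]
  have := h.ef_le i
  exact Nat.mul_dvd_mul_left _ (pow_dvd_pow _ (by omega))

theorem PD.NF_ratio (h : PD m k j a l' l) {i : ℕ} (hi1 : 1 ≤ i) (hi : i ≤ k + 1) :
    Nj (ef m i l) = Nj (ef m i l') * pj j ^ (ef m i l - ef m i l') := by
  rw [h.NF_low hi1 hi, h.NF' hi1 hi, mul_assoc, ← pow_add]
  have := (h.lead' hi).1
  have := h.ef_le i
  congr 2
  omega

end pair

/-- power of the chain prime against a power of `10 ^ 6` -/
theorem pj_pow_le (j : ℕ) {d n : ℕ} (h : 100001 * d ≤ 100000 * n) :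
    pj j ^ d ≤ (10 ^ 6) ^ n := pr_pow_le_million_pow _ h

/-- the size of a family of a static level, late eras: `10 ^ (6 n) ≤ Qf` -/
def Late (m k j : ℕ) : Prop :=
  10 * m ≤ la j ∧ ∀ i, 2 ≤ i → i ≤ k + 1 → ∀ f : Fin 3, ∀ n : ℕ,
    10001 * n ≤ 10000 * dg m j i f → (10 ^ 6) ^ n ≤ Qf m j i f

theorem exists_late (m k : ℕ) (hk : k + 2 ≤ m) : ∃ j0 : ℕ, ∀ j ≥ j0, Late m k j := by
  obtain ⟨j1, h1⟩ := exists_million_pow_le_Qf m k hk
  obtain ⟨j2, h2⟩ := exists_large m
  refine ⟨max j1 j2, fun j hj => ⟨h2 j (le_trans (le_max_right _ _) hj), ?_⟩⟩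
  exact h1 j (le_trans (le_max_left _ _) hj)

section pair

variable {m k j a l' l : ℕ}

theorem PD.dg8 (h : PD m k j a l' l) {i : ℕ} (hi : i ≤ k) (f : Fin 3) :
    8 * dg m j (i + 1) f = gw f * (W m j i - W m j (i + 1)) := by
  have hm := h.km
  have hr := rt_ge h.big (show 0 < m by omega)
  have := eight_mul_dg (m := m) (j := j) (i := i + 1) (by omega) (by omega) f
  rwa [Nat.add_sub_cancel] at this

theorem gw0 : gw 0 = 3 := rfl
theorem gw1 : gw 1 = 3 := rfl
theorem gw2 : gw 2 = 2 := rfl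

/-- **zF** -/
theorem PD.zF (h : PD m k j a l' l) (hL : Late m k j) {r : ℕ} (hr : r < hh m k j a (l - l')) :
    24 * Nj (ef m (a + r) l) < Nj l' * Qf m j (a + r + 1) 0 := by
  obtain ⟨h1, h2⟩ := h.r_lt hr
  have ha := h.a1
  obtain ⟨e1, e2, e3⟩ := h.lead (i := a + r) (by omega)
  have e4 := h.dg8 (i := a + r) h2 0
  rw [gw0] at e4
  have e5 := h.W_step (i := a + r) h2
  have e6 := h.lt
  have e7 : 2 ^ 10 ≤ W m j (a + r + 1) := W_ge h.big (by have := h.km; omega)
  rw [h.NF_low (by omega) (by omega)]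
  have hn : 100001 * (ef m (a + r) l - l') ≤ 100000 * (363 * W m j (a + r) / 1000) := by omega
  have e8 := pj_pow_le j hn
  have e9 := hL.2 (a + r + 1) (by omega) (by omega) 0 (363 * W m j (a + r) / 1000 + 1) (by omega)
  have hN : 0 < Nj l' := Pool.Agent.Helper50.ET.Nj_pos l'
  calc 24 * (Nj l' * pj j ^ (ef m (a + r) l - l'))
      ≤ 24 * (Nj l' * (10 ^ 6) ^ (363 * W m j (a + r) / 1000)) := by gcongr
    _ = Nj l' * (24 * (10 ^ 6) ^ (363 * W m j (a + r) / 1000)) := by ring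
    _ < Nj l' * (10 ^ 6) ^ (363 * W m j (a + r) / 1000 + 1) := by
        apply Nat.mul_lt_mul_of_pos_left _ hN
        rw [pow_succ, mul_comm]
        exact Nat.mul_lt_mul_of_pos_left (by norm_num) (by positivity)
    _ ≤ Nj l' * Qf m j (a + r + 1) 0 := Nat.mul_le_mul_left _ e9

/-- **mid** -/
theorem PD.mid (h : PD m k j a l' l) (hL : Late m k j) {r : ℕ}
    (hr : r + 1 < hh m k j a (l - l')) :
    Nj (ef m (a + r + 1) l) ≤ Nj (ef m (a + r + 1) l') * Qf m j (a + r + 1) 2 := by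
  obtain ⟨h1, h2⟩ := h.r_lt hr
  have ha := h.a1
  have hr2 : a + (r + 1) = a + r + 1 := rfl
  rw [hr2] at h1 h2
  have e4 := h.dg8 (i := a + r) (by omega) 2
  rw [gw2] at e4
  have e5 := h.W_step (i := a + r) (by omega)
  have e6 := h.mu (i := a + r + 1) (by omega) (by omega)
  have e7 : 2 ^ 10 ≤ W m j (a + r + 1) := W_ge h.big (by have := h.km; omega)
  have e10 := h.PPm (i := a + r + 1) (by omega)
  rw [h.NF_ratio (by omega) (by omega)]
  have hn : 100001 * (ef m (a + r + 1) l - ef m (a + r + 1) l') ≤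
      100000 * W m j (a + r + 1) := by omega
  have e8 := pj_pow_le j hn
  have e9 := hL.2 (a + r + 1) (by omega) (by omega) 2 (W m j (a + r + 1)) (by omega)
  exact Nat.mul_le_mul_left _ (e8.trans e9)

/-- **size** -/
theorem PD.size (h : PD m k j a l' l) (hL : Late m k j) {r : ℕ}
    (hr : r < hh m k j a (l - l')) :
    8 * (Nj (ef m (a + r) l) * Lp m j (a + r)) ≤ Nj (ef m (a + r + 1) l) * Lp m j (a + r + 1) := by
  obtain ⟨h1, h2⟩ := h.r_lt hr
  have ha := h.a1
  have e0 := h.lead (i := a + r) (by omega)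
  have e00 := h.lead (i := a + r + 1) (by omega)
  have e4 := h.dg8 (i := a + r) (by omega) 0
  rw [gw0] at e4
  have e5 := h.W_step (i := a + r) (by omega)
  have e7 : 2 ^ 10 ≤ W m j (a + r + 1) := W_ge h.big (by have := h.km; omega)
  have hn : 100001 * (ef m (a + r) l - l) ≤ 100000 * (W m j (a + r) / 8) := by omega
  have e8 := pj_pow_le j hn
  have e9 := hL.2 (a + r + 1) (by omega) (by omega) 0 (W m j (a + r) / 8 + 1) (by omega)
  rw [Lp_succ (by omega), h.NF (by omega) (by omega), h.NF (i := a + r + 1) (by omega) (by omega)]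
  have hQ : Qf m j (a + r + 1) 0 ≤ Qs m j (a + r + 1) := by
    unfold Qs
    rw [Fin.prod_univ_three, mul_assoc]
    exact Nat.le_mul_of_pos_right _ (Nat.mul_pos (Qf_pos _ _ _ _) (Qf_pos _ _ _ _))
  have h3 : 8 * pj j ^ (ef m (a + r) l - l) ≤ Qs m j (a + r + 1) := by
    calc 8 * pj j ^ (ef m (a + r) l - l) ≤ 10 ^ 6 * (10 ^ 6) ^ (W m j (a + r) / 8) :=
          Nat.mul_le_mul (by norm_num) e8
      _ = (10 ^ 6) ^ (W m j (a + r) / 8 + 1) := (pow_succ' _ _).symm
      _ ≤ Qf m j (a + r + 1) 0 := e9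
      _ ≤ _ := hQ
  calc 8 * (Nj l * pj j ^ (ef m (a + r) l - l) * Lp m j (a + r))
      = Nj l * Lp m j (a + r) * (8 * pj j ^ (ef m (a + r) l - l)) := by ring
    _ ≤ Nj l * Lp m j (a + r) * Qs m j (a + r + 1) := Nat.mul_le_mul_left _ h3
    _ = Nj l * Lp m j (a + r) * Qs m j (a + r + 1) * 1 := by ring
    _ ≤ Nj l * Lp m j (a + r) * Qs m j (a + r + 1) * pj j ^ (ef m (a + r + 1) l - l) :=
        Nat.mul_le_mul_left _ (Nat.one_le_pow _ _ (pj_pos j))
    _ = _ := by ring

end pair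

end Pool.Agent.Helper63.T5
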